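import Pool.Agent.H474.GRW.Sums
import Pool.Agent.H474.SHP.Main

/-!
# The main inequality
-/

set_option autoImplicit false
set_option linter.unusedSectionVars false

open Complex Filter Topology Set MeasureTheory
open scoped ComplexConjugate
open H370 (zset mult NN)
open W388 H385
open scoped ArithmeticFunction.vonMangoldt

namespace Pool.Agent.H474.GRW

open Pool.Agent.H474.SHP
open Pool.Agent.Y772.ND (Zf wf mem_Zf wf_nonneg ZZ mem_ZZ ev_exp dz)
open Pool.Agent.Y772.SL (av)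

/-- numerical constants -/
lemma num_G : 2 * Real.pi * Gg (1 / 100) ^ 2 * Real.exp (1 / 4) ≤ 9 := by
  have hπ := Real.pi_lt_d2
  have hπ0 := Real.pi_pos
  have h1 : Gg (1 / 100) ≤ 1 + (1 / 100) ^ 2 := Gg_le (by norm_num) (by norm_num)
  have h0 : 0 < Gg (1 / 100) := Gg_pos (by norm_num) (by linarith [Real.pi_gt_three])
  have h2 : Gg (1 / 100) ^ 2 ≤ 101 / 100 := by nlinarith
  have h3 : Real.exp (1 / 4) ≤ 13 / 10 := by
    have := Real.exp_one_lt_d9
    have h2 : Real.exp (1 / 4) ^ 4 = Real.exp 1 := by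
      rw [← Real.exp_nat_mul]; norm_num
    by_contra hcon
    push Not at hcon
    have h3 : (13 / 10 : ℝ) ^ 4 < Real.exp (1 / 4) ^ 4 := by gcongr
    rw [h2] at h3
    norm_num at h3
    linarith
  calc 2 * Real.pi * Gg (1 / 100) ^ 2 * Real.exp (1 / 4) ≤ 2 * 3.15 * (101 / 100) * (13 / 10) := by
        gcongr
    _ ≤ 9 := by norm_num

/-- the algebra at the end -/
lemma alg_grow {θ κ T St Bd E M Cd U ε : ℝ} (hθ : 0 < θ) (hκ : 0 < κ) (hT : 0 < T)
    (hU : U = T / (2 * Real.pi) * κ) (hE : 0 ≤ E) (hM : 0 ≤ M) (hCd : 0 < Cd)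
    (hBd : Bd ≤ ε * U)
    (h : T / 6 ≤ 9 / (θ * κ) * (Real.exp 1 * (St + Bd) + M * (Real.exp 1 * E * (Cd * (T * κ))))) :
    (θ / 25 - 7 * Cd * E * M - ε) * U ≤ St := by
  have hπ0 := Real.pi_pos
  have hπ := Real.pi_lt_d2
  have hπ3 := Real.pi_gt_three
  have he := Real.exp_one_lt_d9
  have he0 := Real.exp_pos 1
  have hU0 : 0 < U := by rw [hU]; positivity
  have hTκ : T * κ = 2 * Real.pi * U := by rw [hU]; field_simp
  have h1 : T / 6 * (θ * κ) ≤ 9 * (Real.exp 1 * (St + Bd) + M * (Real.exp 1 * E * (Cd * (T * κ)))) := by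
    rw [div_mul_eq_mul_div, le_div_iff₀ (by positivity)] at h
    exact h
  have h2 : T / 6 * (θ * κ) = θ * (2 * Real.pi * U) / 6 := by rw [← hTκ]; ring
  rw [h2, hTκ] at h1
  have h3 : θ * (2 * Real.pi * U) / 6 ≤
      Real.exp 1 * (9 * (St + Bd + M * (E * (Cd * (2 * Real.pi * U))))) := by linarith
  set Q := St + Bd + M * (E * (Cd * (2 * Real.pi * U))) with hQ
  have hQ0 : 0 < Q := by
    have : 0 < Real.exp 1 * (9 * Q) := lt_of_lt_of_le (by positivity) h3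
    have h5 : 0 < 9 * Q := by
      by_contra hcon
      push Not at hcon
      have := mul_nonpos_of_nonneg_of_nonpos he0.le hcon
      linarith
    linarith
  have h4 : Real.exp 1 * (9 * Q) ≤ 2.72 * (9 * Q) := by
    refine mul_le_mul_of_nonneg_right ?_ (by positivity)
    linarith
  have h5 : θ * U ≤ 25 * Q := by
    have h6 : θ * U * 3.14 ≤ θ * U * Real.pi := by
      refine mul_le_mul_of_nonneg_left ?_ (by positivity)
      exact Real.pi_gt_d2.le
    nlinarith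
  have h6 : M * (E * (Cd * (2 * Real.pi * U))) ≤ 7 * Cd * E * M * U := by
    have : 2 * Real.pi ≤ 7 := by linarith
    calc M * (E * (Cd * (2 * Real.pi * U))) = (2 * Real.pi) * (M * E * Cd * U) := by ring
      _ ≤ 7 * (M * E * Cd * U) := mul_le_mul_of_nonneg_right this (by positivity)
      _ = _ := by ring
  have h7 : (θ / 25 - 7 * Cd * E * M - ε) * U = θ * U / 25 - 7 * Cd * E * M * U - ε * U := by ring
  rw [h7]
  linarith

section

variable {ι : Type} [Fintype ι]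

/-- **The main inequality** -/
theorem grow {K : ℝ} (hK : 0 ≤ K) {d A D : ι → ℝ} (hd : ∀ i, 1 ≤ d i) (hA : ∀ i, 1 ≤ A i)
    {F : ι → ℂ → ℂ} {β : ι → ℕ → ℂ}
    (hF : ∀ i, GoodE (d i) (A i) 1 (F i) (fun n => β i n * (Λ n : ℂ)))
    (hβ : ∀ i n, ‖β i n‖ ≤ D i) (sF : (ι → ℝ) → ℝ)
    (hs : ∀ μ : ι → ℝ, Tendsto (av fun n => ‖∑ i, (μ i : ℂ) * β i n‖ ^ 2) (𝓝[>] 0) (𝓝 (sF μ)))
    {Cd θ : ℝ} (hθ : 0 < θ) (hθ8 : θ ≤ 1 / 8) (hCd : 0 < Cd)
    (hden : ∀ i, ∀ᶠ T : ℝ in atTop, ∀ V1 V2 : ℝ, T - 3 * Real.log T ≤ V1 →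
      V2 ≤ 2 * T + 3 * Real.log T → ∀ h : (zset (F i) V1 V2).Finite,
      ∑ z ∈ Zf h, wf (F i) V1 V2 z * Real.exp (1 / 4 * (|z.im| * Real.log T)) ≤ Cd * (T * Real.log T))
    {ε : ℝ} (hε : 0 < ε) :
    ∀ᶠ T : ℝ in atTop, ∀ μ : ι → ℝ, (∀ i, |μ i| ≤ K) → sF μ = 1 →
      (θ / 25 - 7 * Cd * Real.exp (-(1 / (4 * θ))) * (∑ i, |μ i|) - ε) * UU T ≤ St F μ T := by
  obtain ⟨δ, hδe⟩ : ∃ δ : ℝ, δ = 1 / 100 := ⟨_, rfl⟩
  have hδ : 0 < δ := by rw [hδe]; norm_num
  have hδ100 : δ ≤ 1 / 100 := hδe.le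
  set θ' := 2 * θ with hθ'
  have hδ1 : δ ≤ 1 := by linarith
  have hπ : δ < Real.pi := by linarith [Real.pi_gt_three]
  have hd0 : ∀ i, 0 ≤ d i := fun i => by linarith [hd i]
  have hθθ : θ < θ' := by rw [hθ']; linarith
  have hθ'1 : θ' < 1 := by rw [hθ']; linarith
  have hθ'2 : θ' ≤ 1 / 2 - δ / 2 := by rw [hθ']; linarith
  choose C hC hfct using fun i => exists_fct θ θ' hθ hθθ hθ'1 (d i) (A i) (hd i) (hA i) (F i) _ (hF i)
  have hVl := V_low (θ := θ) (θ' := θ') (K := K) (γ := δ) hθ hθθ hθ'1 hK hδ hδ1 hC hd0 hF hβ hδ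
  have hSl := S_low (θ := θ) (θ' := θ') (K := K) hθ hθθ hδ hδ100 d hβ sF hs
  have hIl := I_low' (d := d) hK hδ hδ100 hθ hθθ hθ'2 hd0 hβ
  have t1 : ∀ᶠ T : ℝ in atTop, ∀ i, ∃ V1 V2 : ℝ, Fct θ θ' (C i) (d i) (F i) (fun n => β i n * (Λ n : ℂ)) T V1 V2 :=
    eventually_all.2 hfct
  have t2 := eventually_all.2 hden
  have t4 := ev_exp (1 + (K * (2 * (∑ i, C i))) * (2 * Real.pi) / ε) 1 (show (0:ℝ) < 1 by norm_num)
  filter_upwards [hVl, hSl, hIl, t1, t2, t4, Real.tendsto_log_atTop.eventually_ge_atTop 1,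
    eventually_gt_atTop 1] with T hVl hSl hIl t1 t2 t4 hκ1 hT1
  choose V1 V2 hV using t1
  intro μ hμ hsμ
  set κ := Real.log T with hκ
  rw [zero_mul, Real.exp_zero, mul_one, pow_one] at t4
  have hT0 : 0 < T := by linarith
  have hπ0 := Real.pi_pos
  have hCi0 : ∀ i, 0 ≤ C i := fun i => by linarith [hC i]
  have hCs : 0 ≤ ∑ i, C i := Finset.sum_nonneg fun i _ => hCi0 i
  have hκ0 : 0 < κ := by linarith
  set Z := ZZ fun i => (hV i).fin with hZ
  set az := Pool.Agent.Y772.ND.aa F V1 V2 μ with haz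
  set Λ' := θ * κ with hΛ
  have hΛ0 : 0 < Λ' := mul_pos hθ hκ0
  set S := SS δ Λ' ((∑ i, μ i * d i) * κ) (bb β μ) (NT θ' T) with hS
  have hSlo := hSl μ hμ hsμ
  set X := (∑ i, μ i * d i) ^ 2 / θ ^ 2 with hX
  have hX0 : 0 ≤ X := by positivity
  have hS0 : 47 / 300 ≤ S := by
    refine le_trans ?_ hSlo
    rw [hδe]
    nlinarith
  set r := Real.sqrt (3 * S) with hr
  have hr2 : r ^ 2 = 3 * S := Real.sq_sqrt (by linarith)
  have hrh : 68 / 100 ≤ r := by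
    rw [hr]
    apply Real.le_sqrt_of_sq_le
    norm_num
    linarith
  have hI := hIl μ hμ S r rfl hr2 (by linarith)
  set V : ℝ → ℝ := fun s => ‖∑ z ∈ Z, az z * (pg δ Λ' (z - s)) ^ 2‖ with hVd
  set P : ℝ → ℝ := fun s => |(∑ n ∈ Finset.Icc 1 (NT θ' T), dz (Rw δ) Λ'
          ((∑ i, μ i * d i) * κ) (bb β μ) n * cexp (-(I * s * Real.log n))).re| with hP
  have hPc : Continuous P := by
    have : Continuous fun s : ℝ => (∑ n ∈ Finset.Icc 1 (NT θ' T), dz (Rw δ) Λ'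
          ((∑ i, μ i * d i) * κ) (bb β μ) n * cexp (-(I * s * Real.log n))) := by
      fun_prop
    exact (Complex.continuous_re.comp this).abs
  have hm := fun z => mass hδ hπ hΛ0 z
  have hVle : ∀ s, V s ≤ ∑ z ∈ Z, ‖az z‖ * ‖pg δ Λ' (z - s) ^ 2‖ := by
    intro s
    refine (norm_sum_le _ _).trans (Finset.sum_le_sum fun z _ => ?_)
    rw [norm_mul]
  have hsi : Integrable (fun s : ℝ => ∑ z ∈ Z, ‖az z‖ * ‖pg δ Λ' (z - s) ^ 2‖) :=
    integrable_finsetSum _ fun z _ => (hm z).1.const_mul _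
  have hVc : Continuous V := by
    simp only [hVd]
    have := pg_cont (γ := δ) Λ'
    fun_prop
  have q1 : Integrable V := hsi.mono' hVc.aestronglyMeasurable (ae_of_all _ fun s => by
    rw [Real.norm_of_nonneg (norm_nonneg _)]; exact hVle s)
  have h1 : ∫ s in T..(2 * T), (P s - δ) ≤ ∫ s in T..(2 * T), V s := by
    refine intervalIntegral.integral_mono_on (by linarith) ?_ q1.intervalIntegrable fun s hs => ?_
    · exact (hPc.sub continuous_const).intervalIntegrable _ _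
    · exact hVl V1 V2 hV μ hμ s hs
  rw [intervalIntegral.integral_sub (hPc.intervalIntegrable _ _) intervalIntegrable_const,
    intervalIntegral.integral_const, smul_eq_mul] at h1
  have h2 : ∫ s in T..(2 * T), V s ≤ ∫ s, V s := by
    rw [intervalIntegral.integral_of_le (by linarith)]
    exact setIntegral_le_integral q1 (ae_of_all _ fun s => norm_nonneg _)
  have hI1 : T / 6 ≤ ∫ s, V s := by
    have e1 : T * ((1 - δ) * (r / 3 - δ) - 2 * δ) = T * ((1 - δ) * (r / 3 - δ) - δ) - (2 * T - T) * δ := by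
      ring
    have hI' : T * ((1 - δ) * (r / 3 - δ) - δ) ≤ ∫ s in T..(2 * T), P s := hI
    have e2 : T * (1 / 6) ≤ T * ((1 - δ) * (r / 3 - δ) - 2 * δ) := by
      refine mul_le_mul_of_nonneg_left ?_ hT0.le
      rw [hδe]
      linarith
    linarith
  -- the upper bound
  have hup : ∫ s, V s ≤ 9 / Λ' * ∑ z ∈ Z, ‖az z‖ * Real.exp (Λ' * |z.im|) := by
    have e1 : ∫ s, V s ≤ ∑ z ∈ Z, ‖az z‖ * ∫ s : ℝ, ‖pg δ Λ' (z - s) ^ 2‖ := by
      refine (integral_mono q1 hsi hVle).trans (le_of_eq ?_)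
      rw [integral_finsetSum _ fun z _ => (hm z).1.const_mul _]
      exact Finset.sum_congr rfl fun z _ => integral_const_mul _ _
    refine e1.trans ?_
    rw [Finset.mul_sum]
    refine Finset.sum_le_sum fun z hz => ?_
    obtain ⟨i, g1, g2, g3, g4, g5⟩ := (mem_ZZ _).1 hz
    rw [half_re] at g1 g2
    have hy : z.im ^ 2 ≤ 1 / 4 := by nlinarith
    have e2 : ∫ s : ℝ, ‖pg δ Λ' (z - s) ^ 2‖ ≤ 9 / Λ' * Real.exp (Λ' * |z.im|) := by
      refine (hm z).2.trans ?_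
      rw [Real.exp_add]
      have e3 : Real.exp (z.im ^ 2) ≤ Real.exp (1 / 4) := Real.exp_le_exp.2 hy
      have hG0 : 0 ≤ 2 * Real.pi * Gg δ ^ 2 := by positivity
      have hG := num_G
      rw [← hδe] at hG
      calc 2 * Real.pi * Gg δ ^ 2 / Λ' * (Real.exp (Λ' * |z.im|) * Real.exp (z.im ^ 2))
          = (2 * Real.pi * Gg δ ^ 2) * Real.exp (z.im ^ 2) / Λ' * Real.exp (Λ' * |z.im|) := by ring
        _ ≤ (2 * Real.pi * Gg δ ^ 2) * Real.exp (1 / 4) / Λ' * Real.exp (Λ' * |z.im|) := by gcongr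
        _ ≤ _ := by gcongr
    calc ‖az z‖ * ∫ s : ℝ, ‖pg δ Λ' (z - s) ^ 2‖ ≤ ‖az z‖ * (9 / Λ' * Real.exp (Λ' * |z.im|)) :=
          mul_le_mul_of_nonneg_left e2 (norm_nonneg _)
      _ = _ := by ring
  -- near and far
  have hv1 : ∀ i, V1 i ≤ T := fun i => by have := (hV i).v1'; linarith
  have hv2 : ∀ i, 2 * T ≤ V2 i := fun i => by have := (hV i).v2; linarith
  have hin := sum_in hA hF μ hT1.le (fun i => (hV i).fin) hv1 hv2
  have hout := sum_out hA hF hK hμ hT1.le (fun i => (hV i).fin) (fun i => (hV i).v0)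
  have hfar := sum_far (fun i => (hV i).fin) μ hθ hθ8 (κ := κ) (B := Cd * (T * κ))
    (fun i => t2 i (V1 i) (V2 i) (hV i).v1 (hV i).v2' (hV i).fin)
  have hbd : K * ∑ i, ((NN (F i) (V1 i) T : ℝ) + (NN (F i) (2 * T) (V2 i) : ℝ)) ≤ ε * UU T := by
    have e1 : ∑ i, ((NN (F i) (V1 i) T : ℝ) + (NN (F i) (2 * T) (V2 i) : ℝ)) ≤
        2 * (∑ i, C i) * κ ^ 2 := by
      rw [mul_assoc, Finset.sum_mul, Finset.mul_sum]
      refine Finset.sum_le_sum fun i _ => ?_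
      have := (hV i).cnt1
      have := (hV i).cnt2
      linarith
    refine (mul_le_mul_of_nonneg_left e1 hK).trans ?_
    have e2 : (K * (2 * (∑ i, C i))) * (2 * Real.pi) / ε * κ ≤ T := by
      linarith
    rw [div_mul_eq_mul_div, div_le_iff₀ hε] at e2
    have e3 : ε * UU T = (T * ε) * κ / (2 * Real.pi) := by unfold UU; ring
    rw [e3, le_div_iff₀ (by positivity)]
    have e4 : K * (2 * (∑ i, C i) * κ ^ 2) * (2 * Real.pi) =
        ((K * (2 * (∑ i, C i))) * (2 * Real.pi) * κ) * κ := by ring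
    rw [e4]
    exact mul_le_mul_of_nonneg_right e2 hκ0.le
  classical
  have hsplit : ∑ z ∈ Z, ‖az z‖ * Real.exp (Λ' * |z.im|) ≤
      Real.exp 1 * (St F μ T + K * ∑ i, ((NN (F i) (V1 i) T : ℝ) + (NN (F i) (2 * T) (V2 i) : ℝ))) +
        (∑ i, |μ i|) * (Real.exp 1 * Real.exp (-(1 / (4 * θ))) * (Cd * (T * κ))) := by
    rw [← Finset.sum_filter_add_sum_filter_not Z (fun z => θ * κ * |z.im| ≤ 1)]
    refine add_le_add ?_ hfar
    have e1 : ∑ z ∈ Z.filter (fun z => θ * κ * |z.im| ≤ 1), ‖az z‖ * Real.exp (Λ' * |z.im|) ≤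
        ∑ z ∈ Z.filter (fun z => θ * κ * |z.im| ≤ 1), Real.exp 1 * ‖az z‖ := by
      refine Finset.sum_le_sum fun z hz => ?_
      obtain ⟨-, h3⟩ := Finset.mem_filter.1 hz
      rw [mul_comm]
      exact mul_le_mul_of_nonneg_right (Real.exp_le_exp.2 h3) (norm_nonneg _)
    refine e1.trans ?_
    rw [← Finset.mul_sum]
    refine mul_le_mul_of_nonneg_left ?_ (Real.exp_pos 1).le
    refine (Finset.sum_le_sum_of_subset_of_nonneg (Finset.filter_subset _ _)
      fun _ _ _ => norm_nonneg _).trans ?_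
    rw [← Finset.sum_filter_add_sum_filter_not Z (fun z => T < z.re ∧ z.re ≤ 2 * T)]
    exact add_le_add hin hout
  refine alg_grow hθ hκ0 hT0 rfl (Real.exp_pos _).le (Finset.sum_nonneg fun i _ => abs_nonneg (μ i))
    hCd hbd ?_
  refine hI1.trans (hup.trans ?_)
  exact mul_le_mul_of_nonneg_left hsplit (by positivity)

end

end Pool.Agent.H474.GRW
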