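import Pool.Agent.H474.SYM.Dns
import Pool.Agent.H474.SET.Tr

/-!
# The density theorem with an absolute constant
-/

set_option autoImplicit false
set_option linter.unusedSectionVars false

open NumberField Complex Filter Topology Set

namespace Pool.Agent.H474.GRW

open Pool.Agent.N786 (pr pr_apply)
open Pool.Agent.Y773 (TPos LI)
open Pool.Agent.Y767
open Pool.Agent.N802.LX
open H370 (zset mult GoodL good_dirichlet)

/-- zeros to the right of the critical line, in one window, with an absolute constant -/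
lemma right_chi : ∃ A : ℝ, 0 < A ∧ ∀ (q : ℕ) [NeZero q] (_ : 1 < q) (χ : DirichletCharacter ℂ q)
    (_ : χ.IsPrimitive),
    ∃ T0 : ℝ, 10 ≤ T0 ∧ ∀ T : ℝ, T0 ≤ T → ∀ δ : ℝ, 0 ≤ δ → ∀ Z : Finset ℂ,
      (∀ z ∈ Z, 1 / 2 + δ ≤ z.re ∧ T ≤ z.im ∧ z.im ≤ 2 * T) →
      ∑ z ∈ Z, (mult (DirichletCharacter.LFunction χ) z : ℝ) ≤
        A * (T * Real.log T * Real.exp (-(1 / 2 * δ * Real.log T))) := by
  obtain ⟨A, V₀, hA, hV₀, H⟩ := Pool.Agent.N786.D.dens_fam ℚ (9 / 10) (1 / 2) (by norm_num)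
    (by norm_num) (by norm_num)
  refine ⟨2 * A + 1, by positivity, ?_⟩
  intro q _ hq χ hχ
  refine ⟨max 10 (max V₀ ((q : ℝ) ^ 9)), le_max_left _ _,
    fun T hT δ hδ Z hZ => ?_⟩
  have hT10 : 10 ≤ T := (le_max_left _ _).trans hT
  have hTV : V₀ ≤ T := ((le_max_left _ _).trans (le_max_right _ _)).trans hT
  have hTq : (q : ℝ) ^ 9 ≤ T := ((le_max_right _ _).trans (le_max_right _ _)).trans hT
  have hq1 : (1 : ℝ) ≤ q := by exact_mod_cast hq.le
  have hqT : (q : ℝ) ≤ T := (le_self_pow₀ hq1 (by norm_num)).trans hTq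
  have hT0 : 0 < T := by linarith
  have hfr : Module.finrank ℚ ℚ = 1 := Module.finrank_self ℚ
  have hN : (Ideal.absNorm (idn q * ⊤) : ℝ) = q := by rw [Ideal.mul_top, absNorm_idn]
  have hN1 : (Ideal.absNorm (⊤ : Ideal (𝓞 ℚ)) : ℝ) = 1 := by rw [Ideal.absNorm_top, Nat.cast_one]
  have hcond : ((Ideal.absNorm (idn q * ⊤) : ℝ) * T ^ Module.finrank ℚ ℚ) ^ (9 / 10 : ℝ) ≤
      (Ideal.absNorm (⊤ : Ideal (𝓞 ℚ)) : ℝ) * T ^ Module.finrank ℚ ℚ := by
    rw [hN, hN1, hfr, pow_one, one_mul]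
    exact root_ten hq1 (by linarith) hTq
  have hcop : IsCoprime (idn q) (⊤ : Ideal (𝓞 ℚ)) := by
    rw [← Ideal.one_eq_top]
    exact isCoprime_one_right
  have hntop : idn q * ⊤ ≠ (⊤ : Ideal (𝓞 ℚ)) := by
    rw [Ideal.mul_top]
    intro h
    have := congrArg Ideal.absNorm h
    rw [absNorm_idn, Ideal.absNorm_top] at this
    omega
  have hz : ∀ w : InfinitePlace ℚ, |(0 : InfinitePlace ℚ → ℝ) w| ≤ T := fun w => by
    rw [Pi.zero_apply, abs_zero]; linarith
  have hs : ∑ w : InfinitePlace ℚ, (0 : InfinitePlace ℚ → ℝ) w = 0 := by simp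
  have H' := H (idn q) ⊤ 0 (psi hq χ) T T (isHecke_psi hq hχ) hs hcop top_ne_bot hntop hTV le_rfl
    hz hcond {one0} (fun _ => DirichletCharacter.LFunction χ)
    (fun lam hl => by
      rw [Finset.mem_singleton] at hl
      subst hl
      exact ⟨0, hz, hs, isHecke_one⟩)
    (fun lam hl => by
      rw [Finset.mem_singleton] at hl
      subst hl
      exact ⟨DirichletCharacter.differentiable_LFunction (ne_one hq hχ),
        fun s hs => LI_eq hq χ (pr_idn hq χ) hs⟩)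
  have h3 := H'.2 T (by rw [abs_of_pos hT0]) δ hδ (fun _ => Z) (fun lam _ z hz' => by
    obtain ⟨a, b, c⟩ := hZ z hz'
    exact ⟨a, b, by linarith⟩)
  rw [Finset.sum_singleton, hN, hN1, hfr, pow_one, one_mul] at h3
  have hL : 0 < Real.log T := Real.log_pos (by linarith)
  have h4 : Real.log (q * T) ≤ 2 * Real.log T := by
    rw [Real.log_mul (by linarith) hT0.ne']
    have := Real.log_le_log (by linarith) hqT
    linarith
  have h4' : 0 ≤ Real.log (q * T) := Real.log_nonneg (by nlinarith)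
  have h5 : ((q : ℝ) * T) ^ (-(1 / 2 * δ)) ≤ Real.exp (-(1 / 2 * δ * Real.log T)) := by
    have h6 : ((q : ℝ) * T) ^ (-(1 / 2 * δ)) ≤ T ^ (-(1 / 2 * δ)) :=
      Real.rpow_le_rpow_of_nonpos hT0 (le_mul_of_one_le_left hT0.le hq1) (by linarith)
    refine h6.trans (le_of_eq ?_)
    rw [Real.rpow_def_of_pos hT0]
    congr 1
    ring
  have h7 : (0 : ℝ) ≤ ((q : ℝ) * T) ^ (-(1 / 2 * δ)) := by positivity
  refine h3.trans ?_
  calc A * (T * Real.log (q * T) * ((q : ℝ) * T) ^ (-(1 / 2 * δ)))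
      ≤ A * (T * (2 * Real.log T) * Real.exp (-(1 / 2 * δ * Real.log T))) := by
        refine mul_le_mul_of_nonneg_left ?_ hA
        exact mul_le_mul (mul_le_mul_of_nonneg_left h4 hT0.le) h5 h7 (by positivity)
    _ = (2 * A) * (T * Real.log T * Real.exp (-(1 / 2 * δ * Real.log T))) := by ring
    _ ≤ (2 * A + 1) * (T * Real.log T * Real.exp (-(1 / 2 * δ * Real.log T))) :=
        mul_le_mul_of_nonneg_right (by linarith) (by positivity)

/-- the zeta function -/
lemma right_zeta : ∃ A : ℝ, 0 < A ∧ ∀ T : ℝ, 10 ≤ T → ∀ δ : ℝ, 0 ≤ δ → ∀ Z : Finset ℂ,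
      (∀ z ∈ Z, 1 / 2 + δ ≤ z.re ∧ T ≤ z.im ∧ z.im ≤ 2 * T) →
      ∑ z ∈ Z, (mult riemannZeta z : ℝ) ≤
        A * (T * Real.log T * Real.exp (-(1 / 2 * δ * Real.log T))) := by
  obtain ⟨C, hC, h⟩ := Pool.Agent.Y24.density (c := 1) (by norm_num)
  refine ⟨4 * C, by positivity, ?_⟩
  intro T hT δ hδ Z hZ
  have hT0 : 0 < T := by linarith
  have hL : 0 < Real.log T := Real.log_pos (by linarith)
  have hne : ∀ z ∈ Z, mult riemannZeta z ≠ 0 → riemannZeta z = 0 := by
    intro z hz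
    refine Pool.Agent.H474.SYM.mult_zeta ?_
    intro h1
    have := (hZ z hz).2.1
    rw [h1] at this
    norm_num at this
    linarith
  by_cases hδ1 : δ ≤ 1 / 2
  · obtain ⟨hfin, hle⟩ := h (1 / 2 + δ) (2 * T) (by linarith) (by linarith) (by linarith)
    rw [finsum_mem_eq_finite_toFinset_sum _ hfin] at hle
    have h1 : ∑ z ∈ Z, (mult riemannZeta z : ℝ) ≤ ∑ z ∈ hfin.toFinset, (analyticOrderNatAt riemannZeta z : ℝ) := by
      have h2 : ∑ z ∈ Z, mult riemannZeta z ≤ ∑ z ∈ hfin.toFinset, mult riemannZeta z := by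
        refine Finset.sum_le_sum_of_ne_zero fun z hz hz0 => ?_
        rw [Set.Finite.mem_toFinset]
        obtain ⟨a1, a2, a3⟩ := hZ z hz
        exact ⟨hne z hz hz0, a1, by linarith, a3⟩
      exact_mod_cast h2
    refine (h1.trans hle).trans ?_
    have hlog : Real.log (2 * T) ≤ 2 * Real.log T := by
      have : Real.log (2 * T) ≤ Real.log (T * T) := Real.log_le_log (by linarith) (by nlinarith)
      rw [Real.log_mul (x := T) (y := T) hT0.ne' hT0.ne'] at this
      linarith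
    have hlog' : Real.log T ≤ Real.log (2 * T) := Real.log_le_log hT0 (by linarith)
    have hpow : (2 * T) ^ (1 - 1 * (1 / 2 + δ - 1 / 2)) ≤ 2 * T * Real.exp (-(1 / 2 * δ * Real.log T)) := by
      rw [Real.rpow_def_of_pos (by linarith),
        show Real.log (2 * T) * (1 - 1 * (1 / 2 + δ - 1 / 2)) = Real.log (2 * T) + -(δ * Real.log (2 * T)) by ring,
        Real.exp_add, Real.exp_log (by linarith)]
      refine mul_le_mul_of_nonneg_left (Real.exp_le_exp.2 ?_) (by linarith)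
      have : δ * Real.log T ≤ δ * Real.log (2 * T) := mul_le_mul_of_nonneg_left hlog' hδ
      nlinarith [mul_nonneg hδ hL.le]
    calc C * (2 * T) ^ (1 - 1 * (1 / 2 + δ - 1 / 2)) * Real.log (2 * T)
        ≤ C * (2 * T * Real.exp (-(1 / 2 * δ * Real.log T))) * (2 * Real.log T) := by
          have := Real.exp_pos (-(1 / 2 * δ * Real.log T))
          have h6 : 0 ≤ Real.log (2 * T) := by linarith
          refine mul_le_mul (mul_le_mul_of_nonneg_left hpow hC.le) hlog h6 (by positivity)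
      _ = 4 * C * (T * Real.log T * Real.exp (-(1 / 2 * δ * Real.log T))) := by ring
  · push Not at hδ1
    have h1 : ∑ z ∈ Z, (mult riemannZeta z : ℝ) = 0 := by
      refine Finset.sum_eq_zero fun z hz => ?_
      by_contra hcon
      have h2 : mult riemannZeta z ≠ 0 := by exact_mod_cast hcon
      exact riemannZeta_ne_zero_of_one_le_re (by linarith [(hZ z hz).1]) (hne z hz h2)
    rw [h1]
    positivity

/-- all primitive characters -/
lemma right_all : ∃ A : ℝ, 0 < A ∧ ∀ (q : ℕ) [NeZero q] (χ : DirichletCharacter ℂ q)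
    (_ : χ.IsPrimitive),
    ∃ T0 : ℝ, 10 ≤ T0 ∧ ∀ T : ℝ, T0 ≤ T → ∀ δ : ℝ, 0 ≤ δ → ∀ Z : Finset ℂ,
      (∀ z ∈ Z, 1 / 2 + δ ≤ z.re ∧ T ≤ z.im ∧ z.im ≤ 2 * T) →
      ∑ z ∈ Z, (mult (DirichletCharacter.LFunction χ) z : ℝ) ≤
        A * (T * Real.log T * Real.exp (-(1 / 2 * δ * Real.log T))) := by
  obtain ⟨A, hA, h⟩ := right_chi
  obtain ⟨B, hB, h'⟩ := right_zeta
  refine ⟨A + B, by positivity, ?_⟩
  intro q _ χ hχ
  rcases Nat.lt_or_ge 1 q with hq | hq
  · obtain ⟨T0, hT0, h1⟩ := h q hq χ hχ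
    refine ⟨T0, hT0, fun T hT δ hδ Z hZ => (h1 T hT δ hδ Z hZ).trans ?_⟩
    have hl : 0 ≤ Real.log T := Real.log_nonneg (by linarith)
    have hT0 : 0 ≤ T := by linarith
    exact mul_le_mul_of_nonneg_right (by linarith) (by positivity)
  · have hq : q = 1 := le_antisymm hq (NeZero.pos q)
    subst hq
    rw [DirichletCharacter.LFunction_modOne_eq]
    refine ⟨10, le_rfl, fun T hT δ hδ Z hZ => (h' T hT δ hδ Z hZ).trans ?_⟩
    have hl : 0 ≤ Real.log T := Real.log_nonneg (by linarith)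
    have hT0 : 0 ≤ T := by linarith
    exact mul_le_mul_of_nonneg_right (by linarith) (by positivity)

/-- a longer window -/
lemma right_long {m : ℂ → ℕ} {A T0 : ℝ} (hA : 0 < A) (hT0 : 10 ≤ T0)
    (h : ∀ T : ℝ, T0 ≤ T → ∀ δ : ℝ, 0 ≤ δ → ∀ Z : Finset ℂ,
      (∀ z ∈ Z, 1 / 2 + δ ≤ z.re ∧ T ≤ z.im ∧ z.im ≤ 2 * T) →
      ∑ z ∈ Z, (m z : ℝ) ≤ A * (T * Real.log T * Real.exp (-(1 / 2 * δ * Real.log T))))
    {T : ℝ} (hT : 2 * T0 ≤ T) {δ : ℝ} (hδ : 0 ≤ δ) (hδ1 : δ ≤ 1 / 2) (Z : Finset ℂ)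
    (hZ : ∀ z ∈ Z, 1 / 2 + δ ≤ z.re ∧ T / 2 ≤ z.im ∧ z.im ≤ 4 * T) :
    ∑ z ∈ Z, (m z : ℝ) ≤ 24 * A * (T * Real.log T * Real.exp (-(1 / 2 * δ * Real.log T))) := by
  classical
  have hTp : 0 < T := by linarith
  have hL : 0 < Real.log T := Real.log_pos (by linarith)
  have key : ∀ U : ℝ, T / 2 ≤ U → U ≤ 2 * T → T0 ≤ U → ∀ Z' : Finset ℂ,
      (∀ z ∈ Z', 1 / 2 + δ ≤ z.re ∧ U ≤ z.im ∧ z.im ≤ 2 * U) →
      ∑ z ∈ Z', (m z : ℝ) ≤ 8 * A * (T * Real.log T * Real.exp (-(1 / 2 * δ * Real.log T))) := by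
    intro U hU1 hU2 hU3 Z' hZ'
    refine (h U hU3 δ hδ Z' hZ').trans ?_
    have hU0 : 0 < U := by linarith
    have hlog2 : Real.log 2 ≤ 1 := by
      have := Real.log_two_lt_d9; linarith
    have hlU : Real.log U ≤ 2 * Real.log T := by
      have h1 : Real.log U ≤ Real.log (2 * T) := Real.log_le_log hU0 hU2
      have h2 : Real.log (2 * T) ≤ Real.log (T * T) := Real.log_le_log (by linarith) (by nlinarith)
      rw [Real.log_mul (x := T) (y := T) hTp.ne' hTp.ne'] at h2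
      linarith
    have hlU' : Real.log T - 1 ≤ Real.log U := by
      have h1 : Real.log (T / 2) ≤ Real.log U := Real.log_le_log (by linarith) hU1
      rw [Real.log_div hTp.ne' (by norm_num)] at h1
      linarith
    have he : Real.exp (-(1 / 2 * δ * Real.log U)) ≤ 2 * Real.exp (-(1 / 2 * δ * Real.log T)) := by
      have h1 : Real.exp (1 / 4) ≤ 2 := by
        have := Real.exp_one_lt_d9
        have h2 : Real.exp (1 / 4) ^ 4 = Real.exp 1 := by
          rw [← Real.exp_nat_mul]; norm_num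
        by_contra hcon
        push Not at hcon
        have h3 : (2 : ℝ) ^ 4 < Real.exp (1 / 4) ^ 4 := by gcongr
        rw [h2] at h3
        linarith
      calc Real.exp (-(1 / 2 * δ * Real.log U)) ≤ Real.exp (1 / 4 + -(1 / 2 * δ * Real.log T)) := by
            apply Real.exp_le_exp.2
            nlinarith
        _ = Real.exp (1 / 4) * Real.exp (-(1 / 2 * δ * Real.log T)) := Real.exp_add _ _
        _ ≤ _ := mul_le_mul_of_nonneg_right h1 (Real.exp_pos _).le
    have hlU0 : 0 ≤ Real.log U := Real.log_nonneg (by linarith)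
    calc A * (U * Real.log U * Real.exp (-(1 / 2 * δ * Real.log U)))
        ≤ A * ((2 * T) * (2 * Real.log T) * (2 * Real.exp (-(1 / 2 * δ * Real.log T)))) := by
          refine mul_le_mul_of_nonneg_left ?_ hA.le
          refine mul_le_mul ?_ he (Real.exp_pos _).le (by positivity)
          exact mul_le_mul hU2 hlU hlU0 (by linarith)
      _ = _ := by ring
  have h1 := key (T / 2) le_rfl (by linarith) (by linarith) (Z.filter fun z => z.im ≤ T) (by
    intro z hz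
    obtain ⟨c1, c2⟩ := Finset.mem_filter.1 hz
    obtain ⟨d1, d2, d3⟩ := hZ z c1
    exact ⟨d1, d2, by linarith⟩)
  have h2 := key T (by linarith) (by linarith) (by linarith)
    ((Z.filter fun z => ¬ z.im ≤ T).filter fun z => z.im ≤ 2 * T) (by
    intro z hz
    obtain ⟨c0, c3⟩ := Finset.mem_filter.1 hz
    obtain ⟨c1, c2⟩ := Finset.mem_filter.1 c0
    obtain ⟨d1, d2, d3⟩ := hZ z c1
    exact ⟨d1, by linarith, c3⟩)
  have h3 := key (2 * T) (by linarith) (by linarith) (by linarith)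
    ((Z.filter fun z => ¬ z.im ≤ T).filter fun z => ¬ z.im ≤ 2 * T) (by
    intro z hz
    obtain ⟨c0, c3⟩ := Finset.mem_filter.1 hz
    obtain ⟨c1, c2⟩ := Finset.mem_filter.1 c0
    obtain ⟨d1, d2, d3⟩ := hZ z c1
    exact ⟨d1, by linarith, by linarith⟩)
  rw [← Finset.sum_filter_add_sum_filter_not Z (fun z => z.im ≤ T),
    ← Finset.sum_filter_add_sum_filter_not (Z.filter fun z => ¬ z.im ≤ T) (fun z => z.im ≤ 2 * T)]
  linarith

end Pool.Agent.H474.GRW
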