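import Pool.Agent.H474.GRW.Den

/-!
# The exponential moment with an absolute constant
-/

set_option autoImplicit false
set_option linter.unusedSectionVars false

open Complex Filter Topology Set

namespace Pool.Agent.H474.GRW

open H370 (zset mult GoodL good_dirichlet zz zz_im)

/-- the zeros on both sides -/
lemma both_long {F : ℂ → ℂ} (hF : GoodL F) {A T0 : ℝ} (hA : 0 < A) (hT0 : 10 ≤ T0)
    (h : ∀ T : ℝ, T0 ≤ T → ∀ δ : ℝ, 0 ≤ δ → ∀ Z : Finset ℂ,
      (∀ z ∈ Z, 1 / 2 + δ ≤ z.re ∧ T ≤ z.im ∧ z.im ≤ 2 * T) →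
      ∑ z ∈ Z, (mult F z : ℝ) ≤ A * (T * Real.log T * Real.exp (-(1 / 2 * δ * Real.log T))))
    {T : ℝ} (hT : 2 * T0 ≤ T) {δ : ℝ} (hδ : 0 ≤ δ) (Z : Finset ℂ)
    (hZ : ∀ z ∈ Z, z ∈ zset F (T / 2) (4 * T) ∧ δ ≤ |z.re - 1 / 2|) :
    ∑ z ∈ Z, (mult F z : ℝ) ≤
      48 * A * (T * Real.log T * Real.exp (-(1 / 2 * δ * Real.log T))) := by
  classical
  have hTp : 0 < T := by linarith
  have hL : 0 < Real.log T := Real.log_pos (by linarith)
  rcases Z.eq_empty_or_nonempty with rfl | ⟨z0, hz0⟩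
  · rw [Finset.sum_empty]; positivity
  have hδ1 : δ ≤ 1 / 2 := by
    obtain ⟨⟨d1, d2, d3, d4, d5⟩, d6⟩ := hZ z0 hz0
    refine d6.trans ?_
    rw [abs_le]; constructor <;> linarith
  have hinj : Function.Injective fun z : ℂ => 1 - (starRingEnd ℂ) z := by
    intro z w hzw
    simp only at hzw
    have h1 : (starRingEnd ℂ) z = (starRingEnd ℂ) w := by linear_combination -hzw
    exact (starRingEnd ℂ).injective h1
  have h1 := right_long (m := mult F) hA hT0 h hT hδ hδ1 (Z.filter fun z => 1 / 2 ≤ z.re) (by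
    intro z hz
    obtain ⟨c1, c2⟩ := Finset.mem_filter.mp hz
    obtain ⟨⟨d1, d2, d3, d4, d5⟩, d6⟩ := hZ z c1
    rw [abs_of_nonneg (by linarith)] at d6
    exact ⟨by linarith, d3.le, d4⟩)
  have h2 := right_long (m := mult F) hA hT0 h hT hδ hδ1 ((Z.filter fun z => ¬ 1 / 2 ≤ z.re).image
    fun z => 1 - (starRingEnd ℂ) z) (by
    intro z hz
    obtain ⟨w, hw, rfl⟩ := Finset.mem_image.mp hz
    obtain ⟨c1, c2⟩ := Finset.mem_filter.mp hw
    obtain ⟨⟨d1, d2, d3, d4, d5⟩, d6⟩ := hZ w c1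
    push Not at c2
    rw [abs_of_neg (by linarith)] at d6
    simp only [Complex.sub_re, Complex.one_re, Complex.conj_re, Complex.sub_im, Complex.one_im,
      Complex.conj_im]
    exact ⟨by linarith, by linarith, by linarith⟩)
  rw [Finset.sum_image fun x _ y _ hxy => hinj hxy] at h2
  have h3 : ∑ z ∈ Z.filter (fun z => ¬ 1 / 2 ≤ z.re), (mult F (1 - (starRingEnd ℂ) z) : ℝ) =
      ∑ z ∈ Z.filter (fun z => ¬ 1 / 2 ≤ z.re), (mult F z : ℝ) := by
    refine Finset.sum_congr rfl fun z hz => ?_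
    obtain ⟨c1, c2⟩ := Finset.mem_filter.mp hz
    obtain ⟨⟨d1, d2, d3, d4, d5⟩, d6⟩ := hZ z c1
    unfold mult analyticOrderNatAt
    rw [hF.symm z d1 d2 (by linarith)]
  rw [h3] at h2
  rw [← Finset.sum_filter_add_sum_filter_not Z (fun z => 1 / 2 ≤ z.re)]
  linarith

/-- the constant -/
noncomputable def cA (A : ℝ) : ℝ := 48 * A * Real.exp (1 / 4) / (1 - Real.exp (-(1 / 4)))

lemma cA_pos {A : ℝ} (hA : 0 < A) : 0 < cA A := by
  have hq : Real.exp (-(1 / 4 : ℝ)) < 1 := Real.exp_lt_one_iff.2 (by norm_num)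
  unfold cA
  exact div_pos (by positivity) (by linarith)

/-- the exponential moment -/
lemma moment_long {F : ℂ → ℂ} (hF : GoodL F) {A T0 : ℝ} (hA : 0 < A) (hT0 : 10 ≤ T0)
    (h : ∀ T : ℝ, T0 ≤ T → ∀ δ : ℝ, 0 ≤ δ → ∀ Z : Finset ℂ,
      (∀ z ∈ Z, 1 / 2 + δ ≤ z.re ∧ T ≤ z.im ∧ z.im ≤ 2 * T) →
      ∑ z ∈ Z, (mult F z : ℝ) ≤ A * (T * Real.log T * Real.exp (-(1 / 2 * δ * Real.log T))))
    {T : ℝ} (hT : 2 * T0 ≤ T) (S : Finset ℂ) (hmem : ∀ s ∈ S, s ∈ zset F (T / 2) (4 * T)) :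
    ∑ s ∈ S, (mult F s : ℝ) * Real.exp (1 / 4 * (|s.re - 1 / 2| * Real.log T)) ≤
      cA A * (T * Real.log T) := by
  classical
  have hq : Real.exp (-(1 / 4 : ℝ)) < 1 := Real.exp_lt_one_iff.2 (by norm_num)
  have hTp : 0 < T := by linarith
  obtain ⟨L, hL⟩ : ∃ L : ℝ, L = Real.log T := ⟨_, rfl⟩
  have hL0 : 0 < L := by rw [hL]; exact Real.log_pos (by linarith)
  rw [← hL]
  obtain ⟨nn, hnn⟩ : ∃ nn : ℂ → ℕ, nn = fun s => ⌊|s.re - 1 / 2| * L⌋₊ := ⟨_, rfl⟩
  have hn1 : ∀ s, (nn s : ℝ) ≤ |s.re - 1 / 2| * L := fun s => by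
    rw [hnn]; exact Nat.floor_le (by positivity)
  have hn2 : ∀ s, |s.re - 1 / 2| * L < (nn s : ℝ) + 1 := fun s => by
    rw [hnn]; exact Nat.lt_floor_add_one _
  have hmaps : ∀ s ∈ S, nn s ∈ Finset.range (⌊L⌋₊ + 1) := by
    intro s hs
    obtain ⟨g1, g2, -, -, -⟩ := hmem s hs
    rw [Finset.mem_range, Nat.lt_succ_iff, hnn]
    refine Nat.floor_le_floor ?_
    have hx1 : |s.re - 1 / 2| ≤ 1 := by rw [abs_le]; constructor <;> linarith
    calc |s.re - 1 / 2| * L ≤ 1 * L := mul_le_mul_of_nonneg_right hx1 hL0.le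
      _ = L := one_mul L
  have hcl : ∀ k : ℕ, ∑ s ∈ S.filter (fun s => nn s = k), (mult F s : ℝ) ≤
      48 * A * (T * L) * Real.exp (-(1 / 2 * k)) := by
    intro k
    have h1 := both_long hF hA hT0 h hT (δ := k / L) (by positivity)
      (S.filter (fun s => nn s = k)) (fun z hz => by
        obtain ⟨c1, c2⟩ := Finset.mem_filter.mp hz
        refine ⟨hmem z c1, ?_⟩
        rw [div_le_iff₀ hL0]
        have := hn1 z
        rwa [c2] at this)
    refine h1.trans (le_of_eq ?_)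
    rw [← hL]
    have e : 1 / 2 * ((k : ℝ) / L) * L = 1 / 2 * k := by field_simp
    rw [e]
    ring
  calc ∑ s ∈ S, (mult F s : ℝ) * Real.exp (1 / 4 * (|s.re - 1 / 2| * L))
      = ∑ k ∈ Finset.range (⌊L⌋₊ + 1), ∑ s ∈ S.filter (fun s => nn s = k),
          (mult F s : ℝ) * Real.exp (1 / 4 * (|s.re - 1 / 2| * L)) :=
        (Finset.sum_fiberwise_of_maps_to hmaps _).symm
    _ ≤ ∑ k ∈ Finset.range (⌊L⌋₊ + 1), ∑ s ∈ S.filter (fun s => nn s = k),
          (mult F s : ℝ) * Real.exp (1 / 4 * ((k : ℝ) + 1)) := by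
        refine Finset.sum_le_sum fun k _ => Finset.sum_le_sum fun s hs => ?_
        obtain ⟨c1, c2⟩ := Finset.mem_filter.mp hs
        refine mul_le_mul_of_nonneg_left (Real.exp_le_exp.2 ?_) (Nat.cast_nonneg _)
        have := hn2 s
        rw [c2] at this
        linarith
    _ ≤ ∑ k ∈ Finset.range (⌊L⌋₊ + 1),
          48 * A * (T * L) * Real.exp (1 / 4) * Real.exp (-(1 / 4)) ^ k := by
        refine Finset.sum_le_sum fun k _ => ?_
        rw [← Finset.sum_mul]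
        calc (∑ s ∈ S.filter (fun s => nn s = k), (mult F s : ℝ)) *
              Real.exp (1 / 4 * ((k : ℝ) + 1)) ≤
            (48 * A * (T * L) * Real.exp (-(1 / 2 * k))) * Real.exp (1 / 4 * ((k : ℝ) + 1)) :=
              mul_le_mul_of_nonneg_right (hcl k) (Real.exp_pos _).le
          _ = 48 * A * (T * L) * Real.exp (1 / 4) * Real.exp (-(1 / 4)) ^ k := by
              rw [mul_assoc, ← Real.exp_add, mul_assoc (48 * A * (T * L)), ← Real.exp_nat_mul,
                ← Real.exp_add]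
              congr 2
              ring
    _ = 48 * A * (T * L) * Real.exp (1 / 4) *
          ∑ k ∈ Finset.range (⌊L⌋₊ + 1), Real.exp (-(1 / 4)) ^ k := by
        rw [Finset.mul_sum]
    _ ≤ 48 * A * (T * L) * Real.exp (1 / 4) * (1 - Real.exp (-(1 / 4)))⁻¹ := by
        apply mul_le_mul_of_nonneg_left _ (by positivity)
        have h5 := (summable_geometric_of_lt_one (Real.exp_pos _).le hq).sum_le_tsum
          (Finset.range (⌊L⌋₊ + 1)) (fun i _ => pow_nonneg (Real.exp_pos _).le i)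
        rwa [tsum_geometric_of_lt_one (Real.exp_pos _).le hq] at h5
    _ = _ := by
        unfold cA
        rw [div_eq_mul_inv]
        ring

open Pool.Agent.H474.SET (LS zset_shift shift_inj re_shift)
open Pool.Agent.Y772.ND (Zf wf wf_zz)

lemma mult_LS {q : ℕ} [NeZero q] (χ : DirichletCharacter ℂ q) (τ : ℝ) (s : ℂ) :
    mult (LS χ τ) s = mult (DirichletCharacter.LFunction χ) (s + I * τ) :=
  Pool.Agent.Y772.ND.Pub.ord_tr (DirichletCharacter.LFunction χ) (I * τ) s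

/-- **the exponential moment of the distances to the critical line**, with an absolute constant -/
theorem dens_LS : ∃ C : ℝ, 0 < C ∧ ∀ (q : ℕ) [NeZero q] (χ : DirichletCharacter ℂ q)
    (_ : χ.IsPrimitive) (τ : ℝ), ∀ᶠ T : ℝ in atTop, ∀ V1 V2 : ℝ, T - 3 * Real.log T ≤ V1 →
      V2 ≤ 2 * T + 3 * Real.log T → ∀ h : (zset (LS χ τ) V1 V2).Finite,
      ∑ z ∈ Zf h, wf (LS χ τ) V1 V2 z * Real.exp (1 / 4 * (|z.im| * Real.log T)) ≤
        C * (T * Real.log T) := by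
  classical
  obtain ⟨A, hA, H⟩ := right_all
  refine ⟨cA A, cA_pos hA, ?_⟩
  intro q _ χ hχ τ
  obtain ⟨T0, hT0, h⟩ := H q χ hχ
  have hlog : ∀ᶠ T : ℝ in atTop, 12 * Real.log T ≤ T := by
    have := Real.isLittleO_log_id_atTop.bound (show (0 : ℝ) < 1 / 12 by norm_num)
    filter_upwards [this, eventually_ge_atTop 1] with T h1 h2
    rw [Real.norm_of_nonneg (Real.log_nonneg h2), id, Real.norm_of_nonneg (by linarith)] at h1
    linarith
  filter_upwards [hlog, eventually_ge_atTop (2 * T0), eventually_ge_atTop (4 * |τ|)] with T hlog hT hTτ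
  intro V1 V2 hV1 hV2 hfin
  have hτ1 := neg_abs_le τ
  have hτ2 := le_abs_self τ
  have hTp : 0 < T := by linarith
  have e1 : ∑ z ∈ Zf hfin, wf (LS χ τ) V1 V2 z * Real.exp (1 / 4 * (|z.im| * Real.log T)) =
      ∑ s ∈ hfin.toFinset, (mult (LS χ τ) s : ℝ) * Real.exp (1 / 4 * (|s.re - 1 / 2| * Real.log T)) := by
    unfold Zf
    rw [Finset.sum_image fun s _ s' _ h => H385.PerChi.zz_inj h]
    refine Finset.sum_congr rfl fun s hs => ?_
    rw [wf_zz (hfin.mem_toFinset.1 hs), H385.PerChi.zz_im, abs_neg]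
  rw [e1]
  have e2 : ∑ s ∈ hfin.toFinset, (mult (LS χ τ) s : ℝ) * Real.exp (1 / 4 * (|s.re - 1 / 2| * Real.log T)) =
      ∑ s ∈ hfin.toFinset.image (fun s : ℂ => s + I * τ), (mult (DirichletCharacter.LFunction χ) s : ℝ) *
        Real.exp (1 / 4 * (|s.re - 1 / 2| * Real.log T)) := by
    rw [Finset.sum_image fun s _ s' _ h => shift_inj τ h]
    refine Finset.sum_congr rfl fun s hs => ?_
    rw [mult_LS, re_shift]
  rw [e2]
  refine moment_long (good_dirichlet χ hχ) hA hT0 h hT _ ?_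
  intro s hs
  obtain ⟨w, hw, rfl⟩ := Finset.mem_image.1 hs
  have h1 : w + I * τ ∈ zset (DirichletCharacter.LFunction χ) (V1 + τ) (V2 + τ) := by
    rw [← zset_shift]
    exact ⟨w, hfin.mem_toFinset.1 hw, rfl⟩
  obtain ⟨g1, g2, g3, g4, g5⟩ := h1
  exact ⟨g1, g2, by linarith, by linarith, g5⟩

end Pool.Agent.H474.GRW
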