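import Pool.Agent.H474.GRW.Core
import Pool.Agent.H474.GRW.Den2

/-!
# Dirichlet characters, nonnegative shifts
-/

set_option autoImplicit false
set_option linter.unusedSectionVars false

open Complex Filter Topology Set
open scoped ComplexConjugate
open H370 (zset mult)
open scoped ArithmeticFunction.vonMangoldt

namespace Pool.Agent.H474.GRW

open Pool.Agent.H474.SHP (tw tw_norm UU UU_nn)
open Pool.Agent.H474.SET (LS goodE_LS sel_dir)
open Pool.Agent.Y772.SL (av)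

/-- the choice of the exponent -/
lemma exists_M {B : ℝ} (hB : 0 < B) : ∃ M : ℕ, 3 ≤ M ∧ B * M ≤ 2 ^ (M - 2) := by
  have h := tendsto_pow_const_div_const_pow_of_one_lt 1 (show (1 : ℝ) < 2 by norm_num)
  have h1 := h.eventually (gt_mem_nhds (show (0 : ℝ) < 1 / (4 * B) by positivity))
  obtain ⟨M, hM1, hM2⟩ := (h1.and (eventually_ge_atTop 3)).exists
  refine ⟨M, hM2, ?_⟩
  rw [pow_one, div_lt_div_iff₀ (by positivity) (by positivity)] at hM1
  have h2 : (2 : ℝ) ^ M = 2 ^ (M - 2) * 4 := by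
    have : M = M - 2 + 2 := by omega
    conv_lhs => rw [this, pow_add]
    norm_num
  rw [h2] at hM1
  linarith

/-- the choice of the length -/
lemma choice {B : ℝ} {M : ℕ} (hM3 : 3 ≤ M) (hM : 200 * B * M ≤ 2 ^ (M - 2)) {k : ℝ}
    (hk : 1 ≤ k) {θ : ℝ} (hθ : θ = 1 / (4 * M * Real.log (2 * k))) :
    0 < θ ∧ θ ≤ 1 / 8 ∧ B * Real.exp (-(1 / (4 * θ))) * Real.sqrt k ≤ θ / 50 := by
  have hM0 : (3 : ℝ) ≤ M := by exact_mod_cast hM3
  have hl2 : 0.69 < Real.log (2 * k) := by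
    have h1 := Real.log_two_gt_d9
    have h2 : Real.log 2 ≤ Real.log (2 * k) := Real.log_le_log (by norm_num) (by linarith)
    linarith
  have hl0 : 0 < Real.log (2 * k) := by linarith
  have hM0' : (0 : ℝ) < M := by linarith
  have hθ0 : 0 < θ := by rw [hθ]; positivity
  refine ⟨hθ0, ?_, ?_⟩
  · rw [hθ]
    apply one_div_le_one_div_of_le (by norm_num)
    nlinarith
  · have e1 : 1 / (4 * θ) = M * Real.log (2 * k) := by
      rw [hθ]; field_simp
    have e2 : Real.exp (-(1 / (4 * θ))) = ((2 * k) ^ M)⁻¹ := by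
      rw [e1, Real.exp_neg, Real.exp_nat_mul, Real.exp_log (by linarith)]
    have h1 : Real.sqrt k ≤ 2 * k := by
      rw [Real.sqrt_le_left (by linarith)]
      nlinarith
    have h2 : Real.log (2 * k) ≤ 2 * k := (Real.log_le_sub_one_of_pos (by linarith)).trans (by linarith)
    have h3 : (2 : ℝ) ^ (M - 2) ≤ (2 * k) ^ (M - 2) := pow_le_pow_left₀ (by norm_num) (by linarith) _
    have h4 : (2 * k) ^ M = (2 * k) ^ (M - 2) * (2 * k) ^ 2 := by
      rw [← pow_add]; congr 1; omega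
    have h5 : 200 * B * M * (Real.sqrt k * Real.log (2 * k)) ≤ (2 * k) ^ M := by
      rw [h4]
      have h6 : Real.sqrt k * Real.log (2 * k) ≤ (2 * k) ^ 2 := by
        rw [sq]
        exact mul_le_mul h1 h2 hl0.le (by linarith)
      exact mul_le_mul (hM.trans h3) h6 (by positivity) (by positivity)
    rw [e2, hθ]
    have hp : 0 < (2 * k) ^ M := by positivity
    rw [show B * ((2 * k) ^ M)⁻¹ * Real.sqrt k = (B * Real.sqrt k) / (2 * k) ^ M by
      rw [div_eq_mul_inv]; ring, div_div, div_le_div_iff₀ hp (by positivity)]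
    calc B * Real.sqrt k * (4 * M * Real.log (2 * k) * 50) =
        200 * B * M * (Real.sqrt k * Real.log (2 * k)) := by ring
      _ ≤ _ := by rw [one_mul]; exact h5

/-- scaling -/
lemma St_smul {ι : Type} [Fintype ι] (F : ι → ℂ → ℂ) (μ : ι → ℝ) (T c : ℝ) (hc : 0 ≤ c) :
    St F (fun i => c * μ i) T = c * St F μ T := by
  unfold St
  rw [← smul_eq_mul, smul_finsum]
  refine finsum_congr fun s => ?_
  rw [smul_finsum]
  refine finsum_congr fun _ => ?_
  rw [smul_eq_mul]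
  have : ∑ i, c * μ i * (mult (F i) s : ℝ) = c * ∑ i, μ i * (mult (F i) s : ℝ) := by
    rw [Finset.mul_sum]
    exact Finset.sum_congr rfl fun i _ => by ring
  rw [this, abs_mul, abs_of_nonneg hc]

/-- **growth**, nonnegative shifts -/
theorem grow_nn : ∃ c : ℝ, 0 < c ∧ ∀ (ι : Type) [Fintype ι] [Nonempty ι] (q : ι → ℕ)
    [∀ i, NeZero (q i)] (χ : ∀ i, DirichletCharacter ℂ (q i)) (_ : ∀ i, (χ i).IsPrimitive)
    (τ : ι → ℝ) (_ : ∀ i, 0 ≤ τ i)
    (_ : ∀ i j, i ≠ j → (¬ ∀ n : ℕ, χ i n = χ j n) ∨ τ i ≠ τ j),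
    ∀ᶠ T : ℝ in atTop, ∀ lam : ι → ℝ,
      c / Real.log (2 * Fintype.card ι) * Real.sqrt (∑ i, lam i ^ 2) * UU T ≤
        St (fun i => LS (χ i) (τ i)) lam T := by
  obtain ⟨Cd, hCd, hdens⟩ := dens_LS
  obtain ⟨M, hM3, hM⟩ := exists_M (B := 200 * (7 * Cd)) (by positivity)
  have hM0 : (3 : ℝ) ≤ M := by exact_mod_cast hM3
  refine ⟨1 / (400 * M), by positivity, ?_⟩
  intro ι _ _ q _ χ hχ τ hτ hne
  set k : ℝ := (Fintype.card ι : ℝ) with hk
  have hk1 : 1 ≤ k := by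
    rw [hk]
    exact_mod_cast Fintype.card_pos
  obtain ⟨θ, hθe⟩ : ∃ θ : ℝ, θ = 1 / (4 * M * Real.log (2 * k)) := ⟨_, rfl⟩
  obtain ⟨hθ, hθ8, hθB⟩ := choice (B := 7 * Cd) hM3 hM hk1 hθe
  choose A hA hF using fun i => goodE_LS (hχ i) (hτ i)
  have hβ : ∀ i (n : ℕ), ‖χ i n * tw (τ i) n‖ ≤ 1 := fun i n => by
    rw [norm_mul]
    exact mul_le_one₀ (DirichletCharacter.norm_le_one (χ i) _) (norm_nonneg _) (tw_norm _ n)
  have hg := grow (K := 1) zero_le_one (d := fun _ : ι => 1) (A := A) (D := fun _ => 1)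
    (fun _ => le_rfl) hA (F := fun i => LS (χ i) (τ i)) (β := fun i n => χ i n * tw (τ i) n)
    hF hβ (fun μ => ∑ i, μ i ^ 2) (sel_dir χ hχ τ hne) hθ hθ8 hCd
    (fun i => hdens (q i) (χ i) (hχ i) (τ i)) (ε := θ / 100) (by positivity)
  filter_upwards [hg, eventually_ge_atTop 1] with T hg hT
  intro lam
  have hU : 0 ≤ UU T := UU_nn hT
  set R := Real.sqrt (∑ i, lam i ^ 2) with hR
  have hS0 : 0 ≤ ∑ i, lam i ^ 2 := Finset.sum_nonneg fun i _ => sq_nonneg _
  have hR0 : 0 ≤ R := Real.sqrt_nonneg _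
  rcases hR0.eq_or_lt with hz | hRp
  · rw [← hz, mul_zero, zero_mul]
    unfold St
    exact finsum_nonneg fun s => finsum_nonneg fun _ => abs_nonneg _
  have hR2 : R ^ 2 = ∑ i, lam i ^ 2 := Real.sq_sqrt hS0
  set μ : ι → ℝ := fun i => R⁻¹ * lam i with hμ
  have hμs : ∑ i, μ i ^ 2 = 1 := by
    simp only [hμ, mul_pow]
    rw [← Finset.mul_sum, ← hR2]
    field_simp
  have hμ1 : ∀ i, |μ i| ≤ 1 := by
    intro i
    rw [abs_le_one_iff_mul_self_le_one, ← sq]
    rw [← hμs]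
    exact Finset.single_le_sum (f := fun i => μ i ^ 2) (fun j _ => sq_nonneg _) (Finset.mem_univ i)
  have h1 := hg μ hμ1 hμs
  have h2 : ∑ i, |μ i| ≤ Real.sqrt k := by
    apply Real.le_sqrt_of_sq_le
    have := Finset.sum_mul_sq_le_sq_mul_sq Finset.univ (fun _ : ι => (1 : ℝ)) (fun i => |μ i|)
    simp only [one_mul, one_pow, sq_abs, Finset.sum_const, Finset.card_univ, nsmul_eq_mul, mul_one] at this
    rw [hμs, mul_one] at this
    exact this
  have h3 : 7 * Cd * Real.exp (-(1 / (4 * θ))) * (∑ i, |μ i|) ≤ θ / 50 :=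
    le_trans (mul_le_mul_of_nonneg_left h2 (by positivity)) hθB
  have h4 : θ / 100 * UU T ≤ St (fun i => LS (χ i) (τ i)) μ T := by
    refine le_trans (mul_le_mul_of_nonneg_right ?_ hU) h1
    linarith
  rw [hμ, St_smul _ _ _ _ (inv_nonneg.2 hR0), inv_mul_eq_div, le_div_iff₀ hRp] at h4
  refine le_trans (le_of_eq ?_) h4
  rw [hθe]
  field_simp
  ring

end Pool.Agent.H474.GRW
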