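import Pool.Agent.H474.GRW.Dir

/-!
# Real shifts, zeros and poles
-/

set_option autoImplicit false
set_option linter.unusedSectionVars false

open Complex Filter Topology Set
open scoped ComplexConjugate
open H370 (zset mult NN)
open scoped ArithmeticFunction.vonMangoldt

namespace Pool.Agent.H474.GRW

open Pool.Agent.H474.SHP (tw tw_norm UU UU_nn)
open Pool.Agent.H474.SET (LS goodE_LS sel_dir im_shift re_shift shift_inj fin_shift UU_def)
open Pool.Agent.H474.SYM (goodE_dir)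
open Pool.Agent.Y772.ND (mult_zero)

section

variable {ι : Type} [Fintype ι] {q : ι → ℕ} [∀ i, NeZero (q i)] {χ : ∀ i, DirichletCharacter ℂ (q i)}

/-- the net multiplicity -/
noncomputable def net (χ : ∀ i, DirichletCharacter ℂ (q i)) (t lam : ι → ℝ) (s : ℂ) : ℝ :=
  ∑ i, lam i * (mult (LS (χ i) (t i)) s : ℝ)

/-- sums over the box of a function of the net multiplicity -/
noncomputable def Sg (G : ℝ → ℝ) (χ : ∀ i, DirichletCharacter ℂ (q i)) (t lam : ι → ℝ) (T : ℝ) : ℝ :=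
  ∑ᶠ s ∈ bx T, G (net χ t lam s)

lemma Sg_abs (t lam : ι → ℝ) (T : ℝ) : Sg (fun x => |x|) χ t lam T = St (fun i => LS (χ i) (t i)) lam T :=
  rfl

lemma mult_LS_zero {q : ℕ} [NeZero q] {χ : DirichletCharacter ℂ q} (hχ : χ.IsPrimitive) (t : ℝ) {s : ℂ}
    (hs : 0 < s.im + t) (h0 : LS χ t s ≠ 0) : mult (LS χ t) s = 0 := by
  obtain ⟨A, hA, hF⟩ := goodE_dir hχ
  rw [mult_LS]
  exact mult_zero hF (by rw [im_shift]; exact hs) h0

lemma Sg_eq (hχ : ∀ i, (χ i).IsPrimitive) (G : ℝ → ℝ) (hG0 : G 0 = 0) (t lam : ι → ℝ) {T : ℝ}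
    (hT : ∀ i, 0 < T + t i) (Z : Finset ℂ) (hZb : ∀ s, s ∈ Z → s ∈ bx T)
    (hsub : ∀ i, zset (LS (χ i) (t i)) T (2 * T) ⊆ (Z : Set ℂ)) :
    Sg G χ t lam T = ∑ s ∈ Z, G (net χ t lam s) := by
  unfold Sg
  rw [finsum_mem_eq_sum_of_inter_support_eq]
  ext s
  simp only [Set.mem_inter_iff, Function.mem_support]
  constructor
  · rintro ⟨h1, h2⟩
    refine ⟨?_, h2⟩
    by_contra h3
    apply h2
    obtain ⟨g1, g2, g3, g4⟩ := h1
    have : net χ t lam s = 0 := by
      refine Finset.sum_eq_zero fun i _ => ?_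
      have h0 : LS (χ i) (t i) s ≠ 0 := fun h0 => h3 (hsub i ⟨g1, g2, g3, g4, h0⟩)
      rw [mult_LS_zero (hχ i) (t i) (by have := hT i; linarith) h0]
      simp
    rw [this, hG0]
  · rintro ⟨h1, h2⟩
    exact ⟨hZb s h1, h2⟩

/-- **translation** -/
lemma trans (hχ : ∀ i, (χ i).IsPrimitive) (G : ℝ → ℝ) (hG0 : ∀ x, 0 ≤ G x) (hG : ∀ x, G x ≤ |x|)
    (t lam : ι → ℝ) {W : ℝ} (hW : ∀ i, 0 ≤ t i + W) {T : ℝ} (hT : W + 1 ≤ T)
    (hT' : ∀ i, 1 ≤ T + t i) (hW0 : 0 ≤ W) :
    Sg G χ (fun i => t i + W) lam T ≤ Sg G χ t lam T +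
      ∑ i, |lam i| * (NN (LS (χ i) (t i + W)) (2 * T - W) (2 * T) : ℝ) := by
  classical
  have hG00 : G 0 = 0 := le_antisymm (by simpa using hG 0) (hG0 0)
  have f1 : ∀ i, (zset (LS (χ i) (t i)) T (2 * T)).Finite := fun i =>
    fin_shift (hχ i) _ _ _ (hT' i)
  have f2 : ∀ i, (zset (LS (χ i) (t i + W)) T (2 * T)).Finite := fun i =>
    fin_shift (hχ i) _ _ _ (by have := hW i; linarith)
  have f3 : ∀ i, (zset (LS (χ i) (t i + W)) (2 * T - W) (2 * T)).Finite := fun i =>
    fin_shift (hχ i) _ _ _ (by have := hW i; linarith)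
  have g1 : (⋃ i, zset (LS (χ i) (t i)) T (2 * T)).Finite := Set.finite_iUnion f1
  have g2 : (⋃ i, zset (LS (χ i) (t i + W)) T (2 * T)).Finite := Set.finite_iUnion f2
  have hb : ∀ (u : ι → ℝ) (g : (⋃ i, zset (LS (χ i) (u i)) T (2 * T)).Finite), ∀ s, s ∈ g.toFinset →
      s ∈ bx T := by
    intro u g s hs
    obtain ⟨i, k1, k2, k3, k4, -⟩ := Set.mem_iUnion.1 (g.mem_toFinset.1 hs)
    exact ⟨k1, k2, k3, k4⟩
  rw [Sg_eq hχ G hG00 _ lam (fun i => by have := hW i; linarith) g2.toFinset (hb _ g2)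
      (fun i s hs => g2.mem_toFinset.2 (Set.mem_iUnion.2 ⟨i, hs⟩)),
    Sg_eq hχ G hG00 _ lam (fun i => by have := hT' i; linarith) g1.toFinset (hb _ g1)
      (fun i s hs => g1.mem_toFinset.2 (Set.mem_iUnion.2 ⟨i, hs⟩)),
    ← Finset.sum_filter_add_sum_filter_not g2.toFinset (fun s => s.im ≤ 2 * T - W)]
  have hnet : ∀ s : ℂ, net χ (fun i => t i + W) lam s = net χ t lam (s + I * W) := by
    intro s
    unfold net
    refine Finset.sum_congr rfl fun i _ => ?_
    rw [mult_LS, mult_LS]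
    congr 3
    push_cast; ring
  refine add_le_add ?_ ?_
  · simp_rw [hnet]
    rw [← Finset.sum_image (s := g2.toFinset.filter (fun s => s.im ≤ 2 * T - W))
      (g := fun s : ℂ => s + I * W) (f := fun s => G (net χ t lam s))
      (fun x _ y _ hxy => shift_inj W hxy)]
    refine Finset.sum_le_sum_of_subset_of_nonneg ?_ fun _ _ _ => hG0 _
    intro s hs
    obtain ⟨w, hw, rfl⟩ := Finset.mem_image.1 hs
    obtain ⟨hw1, hw2⟩ := Finset.mem_filter.1 hw
    obtain ⟨i, k1, k2, k3, k4, k5⟩ := Set.mem_iUnion.1 (g2.mem_toFinset.1 hw1)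
    refine g1.mem_toFinset.2 (Set.mem_iUnion.2 ⟨i, ?_, ?_, ?_, ?_, ?_⟩)
    · rw [re_shift]; exact k1
    · rw [re_shift]; exact k2
    · rw [im_shift]; linarith
    · rw [im_shift]; linarith
    · rw [← k5]
      unfold LS
      congr 1
      push_cast; ring
  · have h1 : ∀ s ∈ g2.toFinset.filter (fun s => ¬ s.im ≤ 2 * T - W),
        G (net χ (fun i => t i + W) lam s) ≤ ∑ i, |lam i| * (mult (LS (χ i) (t i + W)) s : ℝ) := by
      intro s _
      refine (hG _).trans ?_
      unfold net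
      refine (Finset.abs_sum_le_sum_abs _ _).trans (Finset.sum_le_sum fun i _ => ?_)
      rw [abs_mul, Nat.abs_cast]
    refine (Finset.sum_le_sum h1).trans ?_
    rw [Finset.sum_comm]
    refine Finset.sum_le_sum fun i _ => ?_
    rw [← Finset.mul_sum]
    refine mul_le_mul_of_nonneg_left ?_ (abs_nonneg _)
    unfold NN
    rw [finsum_mem_eq_finite_toFinset_sum _ (f3 i)]
    have h2 : ∑ s ∈ g2.toFinset.filter (fun s => ¬ s.im ≤ 2 * T - W), mult (LS (χ i) (t i + W)) s ≤
        ∑ s ∈ (f3 i).toFinset, mult (LS (χ i) (t i + W)) s := by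
      refine Finset.sum_le_sum_of_ne_zero fun s hs hs0 => ?_
      obtain ⟨hw1, hw2⟩ := Finset.mem_filter.1 hs
      obtain ⟨j, k1, k2, k3, k4, -⟩ := Set.mem_iUnion.1 (g2.mem_toFinset.1 hw1)
      push Not at hw2
      refine (f3 i).mem_toFinset.2 ⟨k1, k2, hw2, k4, ?_⟩
      by_contra h0
      exact hs0 (mult_LS_zero (hχ i) (t i + W) (by have := hW i; linarith) h0)
    exact_mod_cast h2

/-- the boundary is small -/
lemma bdry (hχ : ∀ i, (χ i).IsPrimitive) (t : ι → ℝ) {W : ℝ} (hW : ∀ i, 0 ≤ t i + W) (hW1 : 1 ≤ W)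
    {ε : ℝ} (hε : 0 < ε) : ∀ᶠ T : ℝ in atTop, ∀ i,
      (NN (LS (χ i) (t i + W)) (2 * T - W) (2 * T) : ℝ) ≤ ε * UU T := by
  refine eventually_all.2 fun i => ?_
  obtain ⟨A, hA, hF⟩ := goodE_LS (hχ i) (hW i)
  obtain ⟨C, hC, hz⟩ := W388.zcount_long_D 1 A le_rfl hA
  have hπ := Real.pi_pos
  filter_upwards [eventually_ge_atTop (C * W * (4 * Real.pi) / ε), eventually_ge_atTop (W + 3)]
    with T h1 h2
  have hT : 0 < T := by linarith
  have h7 := hz 1 _ _ le_rfl hF (2 * T - W) (2 * T) (by linarith) (by linarith)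
  refine h7.trans ?_
  have h10 : Real.log (1 * (2 * T)) ≤ 2 * Real.log T := by
    have : Real.log (1 * (2 * T)) ≤ Real.log (T * T) := by
      refine Real.log_le_log (by linarith) ?_
      nlinarith
    rw [Real.log_mul hT.ne' hT.ne'] at this
    linarith
  have h11 : C * (2 * T - (2 * T - W)) = C * W := by ring
  rw [h11, UU_def]
  have h12 : C * W * Real.log (1 * (2 * T)) ≤ C * W * (2 * Real.log T) :=
    mul_le_mul_of_nonneg_left h10 (by positivity)
  refine h12.trans ?_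
  rw [div_le_iff₀ hε] at h1
  have hL : 0 ≤ Real.log T := Real.log_nonneg (by linarith)
  have h13 := mul_le_mul_of_nonneg_right h1 hL
  have h14 : ε * (T / (2 * Real.pi) * Real.log T) = T * ε * Real.log T / (2 * Real.pi) := by ring
  rw [h14, le_div_iff₀ (by positivity)]
  linarith

/-- the difference of the numbers of zeros and poles -/
lemma diff (hχ : ∀ i, (χ i).IsPrimitive) (t lam : ι → ℝ) (ht : ∀ i, 0 ≤ t i) {ε : ℝ} (hε : 0 < ε) :
    ∀ᶠ T : ℝ in atTop,
      |Sg (fun x => max x 0) χ t lam T - Sg (fun x => max (-x) 0) χ t lam T - (∑ i, lam i) * UU T| ≤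
        ε * UU T ∧
      Sg (fun x => max x 0) χ t lam T + Sg (fun x => max (-x) 0) χ t lam T = Sg (fun x => |x|) χ t lam T := by
  classical
  choose A hA hF using fun i => goodE_LS (hχ i) (ht i)
  choose C hC using fun i => Pool.Agent.Y431.ND.t_NASY 1 (A i) _ _ le_rfl (hA i) (hF i)
  have hπ := Real.pi_pos
  filter_upwards [eventually_all.2 hC, eventually_ge_atTop 1,
    Real.tendsto_log_atTop.eventually_ge_atTop ((∑ i, |lam i| * |C i|) * (2 * Real.pi) / ε)] with T h1 hT h2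
  have hT0 : 0 < T := by linarith
  have f1 : ∀ i, (zset (LS (χ i) (t i)) T (2 * T)).Finite := fun i =>
    fin_shift (hχ i) _ _ _ (by have := ht i; linarith)
  have g1 : (⋃ i, zset (LS (χ i) (t i)) T (2 * T)).Finite := Set.finite_iUnion f1
  have hb : ∀ s, s ∈ g1.toFinset → s ∈ bx T := by
    intro s hs
    obtain ⟨i, k1, k2, k3, k4, -⟩ := Set.mem_iUnion.1 (g1.mem_toFinset.1 hs)
    exact ⟨k1, k2, k3, k4⟩
  have hs := fun (G : ℝ → ℝ) (hG : G 0 = 0) => Sg_eq hχ G hG t lam
    (fun i => by have := ht i; linarith) g1.toFinset hb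
    (fun i s hs => g1.mem_toFinset.2 (Set.mem_iUnion.2 ⟨i, hs⟩))
  rw [hs (fun x => max x 0) (by simp), hs (fun x => max (-x) 0) (by simp), hs (fun x => |x|) (by simp)]
  have e1 : ∀ x : ℝ, max x 0 - max (-x) 0 = x := fun x => by
    rcases le_total 0 x with h | h
    · rw [max_eq_left h, max_eq_right (by linarith)]; ring
    · rw [max_eq_right h, max_eq_left (by linarith)]; ring
  have e2 : ∀ x : ℝ, max x 0 + max (-x) 0 = |x| := fun x => by
    rcases le_total 0 x with h | h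
    · rw [max_eq_left h, max_eq_right (by linarith), abs_of_nonneg h]; ring
    · rw [max_eq_right h, max_eq_left (by linarith), abs_of_nonpos h]; ring
  constructor
  · rw [← Finset.sum_sub_distrib]
    simp_rw [e1]
    have e3 : ∑ s ∈ g1.toFinset, net χ t lam s = ∑ i, lam i * (NN (LS (χ i) (t i)) T (2 * T) : ℝ) := by
      unfold net
      rw [Finset.sum_comm]
      refine Finset.sum_congr rfl fun i _ => ?_
      rw [← Finset.mul_sum]
      congr 1
      unfold NN
      rw [finsum_mem_eq_finite_toFinset_sum _ (f1 i)]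
      push_cast
      symm
      refine Finset.sum_subset (fun s h => g1.mem_toFinset.2 (Set.mem_iUnion.2 ⟨i, (f1 i).mem_toFinset.1 h⟩))
        fun s h1 h2 => ?_
      obtain ⟨k1, k2, k3, k4⟩ := hb s h1
      have h0 : LS (χ i) (t i) s ≠ 0 := fun h0 => h2 ((f1 i).mem_toFinset.2 ⟨k1, k2, k3, k4, h0⟩)
      rw [mult_LS_zero (hχ i) (t i) (by have := ht i; linarith) h0]
      simp
    rw [e3, Finset.sum_mul, ← Finset.sum_sub_distrib]
    refine (Finset.abs_sum_le_sum_abs _ _).trans ?_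
    have h3 : ∀ i, |lam i * (NN (LS (χ i) (t i)) T (2 * T) : ℝ) - lam i * UU T| ≤ |lam i| * |C i| * T := by
      intro i
      rw [← mul_sub, abs_mul, mul_assoc]
      refine mul_le_mul_of_nonneg_left ?_ (abs_nonneg _)
      have h4 : UU T = 1 / (2 * Real.pi) * T * Real.log T := by rw [UU_def]; ring
      rw [h4]
      exact (h1 i).trans (mul_le_mul_of_nonneg_right (le_abs_self _) hT0.le)
    refine (Finset.sum_le_sum fun i _ => h3 i).trans ?_
    rw [← Finset.sum_mul]
    rw [div_le_iff₀ hε] at h2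
    have h5 := mul_le_mul_of_nonneg_left h2 hT0.le
    have h6 : ε * UU T = ε * (T * Real.log T) / (2 * Real.pi) := by rw [UU_def]; ring
    rw [h6, le_div_iff₀ (by positivity)]
    linarith
  · rw [← Finset.sum_add_distrib]
    exact Finset.sum_congr rfl fun s _ => e2 _

end

/-- **growth**, zeros and poles, real shifts -/
theorem grow_all : ∃ c : ℝ, 0 < c ∧ ∀ (ι : Type) [Fintype ι] [Nonempty ι] (q : ι → ℕ)
    [∀ i, NeZero (q i)] (χ : ∀ i, DirichletCharacter ℂ (q i)) (_ : ∀ i, (χ i).IsPrimitive)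
    (t : ι → ℝ) (_ : ∀ i j, i ≠ j → (¬ ∀ n : ℕ, χ i n = χ j n) ∨ t i ≠ t j),
    (∀ᶠ T : ℝ in atTop, ∀ lam : ι → ℝ,
      c / Real.log (2 * Fintype.card ι) * Real.sqrt (∑ i, lam i ^ 2) * UU T ≤
        Sg (fun x => |x|) χ t lam T) ∧
    ∀ lam : ι → ℝ, ∀ ε : ℝ, 0 < ε → ∀ᶠ T : ℝ in atTop,
      (c / Real.log (2 * Fintype.card ι) * Real.sqrt (∑ i, lam i ^ 2) + ∑ i, lam i - ε) * UU T ≤
        2 * Sg (fun x => max x 0) χ t lam T ∧
      (c / Real.log (2 * Fintype.card ι) * Real.sqrt (∑ i, lam i ^ 2) - ∑ i, lam i - ε) * UU T ≤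
        2 * Sg (fun x => max (-x) 0) χ t lam T := by
  obtain ⟨c, hc, H⟩ := grow_nn
  refine ⟨c / 2, by positivity, ?_⟩
  intro ι _ _ q _ χ hχ t hne
  obtain ⟨W, hWe⟩ : ∃ W : ℝ, W = ∑ i, |t i| + 1 := ⟨_, rfl⟩
  have hW1 : 1 ≤ W := by
    rw [hWe]
    have : 0 ≤ ∑ i, |t i| := Finset.sum_nonneg fun i _ => abs_nonneg _
    linarith
  have hti : ∀ i, |t i| ≤ W := fun i => by
    have := Finset.single_le_sum (f := fun j => |t j|) (fun j _ => abs_nonneg (t j)) (Finset.mem_univ i)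
    rw [hWe]
    linarith
  have hW : ∀ i, 0 ≤ t i + W := fun i => by
    have h2 := neg_abs_le (t i)
    linarith [hti i]
  have hg := H ι q χ hχ (fun i => t i + W) hW (fun i j hij => by
    rcases hne i j hij with h | h
    · exact Or.inl h
    · exact Or.inr fun h' => h (add_right_cancel h'))
  set k : ℝ := (Fintype.card ι : ℝ) with hk
  have hk1 : 1 ≤ k := by
    rw [hk]
    exact_mod_cast Fintype.card_pos
  have hl2 : 0 < Real.log (2 * k) := Real.log_pos (by linarith)
  have hsq : ∀ lam : ι → ℝ, ∑ i, |lam i| ≤ Real.sqrt k * Real.sqrt (∑ i, lam i ^ 2) := by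
    intro lam
    rw [← Real.sqrt_mul (by linarith)]
    apply Real.le_sqrt_of_sq_le
    have := Finset.sum_mul_sq_le_sq_mul_sq Finset.univ (fun _ : ι => (1 : ℝ)) (fun i => |lam i|)
    simp only [one_mul, one_pow, sq_abs, Finset.sum_const, Finset.card_univ, nsmul_eq_mul, mul_one] at this
    exact this
  have hsk : 0 < Real.sqrt k := Real.sqrt_pos.2 (by linarith)
  constructor
  · have hb := bdry hχ t hW hW1 (ε := c / 2 / Real.log (2 * k) / Real.sqrt k) (by positivity)
    filter_upwards [hg, hb, eventually_ge_atTop (W + 1)] with T hg hb hT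
    intro lam
    have h1 := trans (χ := χ) hχ (fun x => |x|) (fun x => abs_nonneg x) (fun x => le_rfl) t lam hW hT
      (fun i => by have := neg_abs_le (t i); linarith [hti i]) (by linarith)
    have h2 := hg lam
    rw [← Sg_abs] at h2
    have hU : 0 ≤ UU T := UU_nn (by linarith)
    have h3 : ∑ i, |lam i| * (NN (LS (χ i) (t i + W)) (2 * T - W) (2 * T) : ℝ) ≤
        (c / 2 / Real.log (2 * k)) * Real.sqrt (∑ i, lam i ^ 2) * UU T := by
      calc ∑ i, |lam i| * (NN (LS (χ i) (t i + W)) (2 * T - W) (2 * T) : ℝ) ≤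
          ∑ i, |lam i| * (c / 2 / Real.log (2 * k) / Real.sqrt k * UU T) :=
            Finset.sum_le_sum fun i _ => mul_le_mul_of_nonneg_left (hb i) (abs_nonneg _)
        _ = (∑ i, |lam i|) * (c / 2 / Real.log (2 * k) / Real.sqrt k * UU T) := by rw [Finset.sum_mul]
        _ ≤ (Real.sqrt k * Real.sqrt (∑ i, lam i ^ 2)) * (c / 2 / Real.log (2 * k) / Real.sqrt k * UU T) :=
            mul_le_mul_of_nonneg_right (hsq lam) (by positivity)
        _ = _ := by field_simp
    have e1 : c / Real.log (2 * k) = c / 2 / Real.log (2 * k) + c / 2 / Real.log (2 * k) := by ring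
    rw [e1] at h2
    linarith
  · intro lam ε hε
    set R := Real.sqrt (∑ i, lam i ^ 2) with hR
    have hR0 : 0 ≤ R := Real.sqrt_nonneg _
    set L1 := ∑ i, |lam i| with hL1
    have hL10 : 0 ≤ L1 := Finset.sum_nonneg fun i _ => abs_nonneg _
    have hb := bdry hχ t hW hW1 (ε := ε / (4 * (L1 + 1))) (by positivity)
    have hd := diff hχ (fun i => t i + W) lam hW (ε := ε / 2) (by positivity)
    filter_upwards [hg, hb, hd, eventually_ge_atTop (W + 1)] with T hg hb hd hT
    obtain ⟨d1, d2⟩ := hd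
    obtain ⟨d3, d4⟩ := abs_le.1 d1
    have h2 := hg lam
    rw [← Sg_abs] at h2
    have hU : 0 ≤ UU T := UU_nn (by linarith)
    have h3 : ∑ i, |lam i| * (NN (LS (χ i) (t i + W)) (2 * T - W) (2 * T) : ℝ) ≤ ε / 4 * UU T := by
      calc ∑ i, |lam i| * (NN (LS (χ i) (t i + W)) (2 * T - W) (2 * T) : ℝ) ≤
          ∑ i, |lam i| * (ε / (4 * (L1 + 1)) * UU T) :=
            Finset.sum_le_sum fun i _ => mul_le_mul_of_nonneg_left (hb i) (abs_nonneg _)
        _ = L1 * (ε / (4 * (L1 + 1)) * UU T) := by rw [hL1, Finset.sum_mul]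
        _ ≤ (L1 + 1) * (ε / (4 * (L1 + 1)) * UU T) :=
            mul_le_mul_of_nonneg_right (by linarith) (by positivity)
        _ = _ := by field_simp
    have k1 := trans (χ := χ) hχ (fun x => max x 0) (fun x => le_max_right _ _)
      (fun x => max_le (le_abs_self x) (abs_nonneg x)) t lam hW hT
      (fun i => by have := neg_abs_le (t i); linarith [hti i]) (by linarith)
    have k2 := trans (χ := χ) hχ (fun x => max (-x) 0) (fun x => le_max_right _ _)
      (fun x => max_le (neg_le_abs x) (abs_nonneg x)) t lam hW hT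
      (fun i => by have := neg_abs_le (t i); linarith [hti i]) (by linarith)
    have e1 : c / 2 / Real.log (2 * k) ≤ c / Real.log (2 * k) := by
      rw [div_le_div_iff_of_pos_right hl2]; linarith
    have e2 : c / 2 / Real.log (2 * k) * R * UU T ≤ c / Real.log (2 * k) * R * UU T := by
      have := mul_le_mul_of_nonneg_right e1 (mul_nonneg hR0 hU)
      rwa [← mul_assoc, ← mul_assoc] at this
    constructor
    · have e3 : (c / 2 / Real.log (2 * k) * R + ∑ i, lam i - ε) * UU T =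
          c / 2 / Real.log (2 * k) * R * UU T + (∑ i, lam i) * UU T - ε * UU T := by ring
      rw [e3]
      linarith
    · have e3 : (c / 2 / Real.log (2 * k) * R - ∑ i, lam i - ε) * UU T =
          c / 2 / Real.log (2 * k) * R * UU T - (∑ i, lam i) * UU T - ε * UU T := by ring
      rw [e3]
      linarith

end Pool.Agent.H474.GRW
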