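import Pool.Agent.H474.SHP.Sh2

/-!
# The L1 norm of the Dirichlet polynomial, for an arbitrary length
-/

set_option autoImplicit false
set_option linter.unusedSectionVars false

open Complex Filter Topology Set MeasureTheory
open scoped ComplexConjugate
open H370 (zset mult NN)
open W388 H385
open scoped ArithmeticFunction.vonMangoldt

namespace Pool.Agent.H474.GRW

open Pool.Agent.H474.SHP
open Pool.Agent.Y772.ND (ev_exp Wz dz)
open Pool.Agent.Y772.SL (av)
open PerChi (Rw_cont)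

section

variable {ι : Type} [Fintype ι]

lemma I_low' {K δ θ θ' : ℝ} (hK : 0 ≤ K) (hδ : 0 < δ) (hδ' : δ ≤ 1 / 100) (hθ : 0 < θ)
    (hθθ : θ < θ') (hθ2 : θ' ≤ 1 / 2 - δ / 2) {d D : ι → ℝ} (hd0 : ∀ i, 0 ≤ d i)
    {β : ι → ℕ → ℂ} (hβ : ∀ i n, ‖β i n‖ ≤ D i) :
    ∀ᶠ T : ℝ in atTop, ∀ μ : ι → ℝ, (∀ i, |μ i| ≤ K) → ∀ S r : ℝ,
      S = SS δ (θ * Real.log T) ((∑ i, μ i * d i) * Real.log T) (bb β μ)
        (NT θ' T) → r ^ 2 = 3 * S → 1 / 2 ≤ r →
      T * ((1 - δ) * (r / 3 - δ) - δ) ≤ ∫ s in T..(2 * T),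
        |(∑ n ∈ Finset.Icc 1 (NT θ' T), dz (Rw δ) (θ * Real.log T)
          ((∑ i, μ i * d i) * Real.log T) (bb β μ) n * cexp (-(I * s * Real.log n))).re| := by
  have hδ1 : δ ≤ 1 := by linarith
  have hD : ∀ i, 0 ≤ D i := fun i => (norm_nonneg _).trans (hβ i 0)
  have hθ' : 0 < θ' := by linarith
  have hθ'1 : θ' < 1 := by linarith
  set DK := K * ∑ i, D i with hDK
  have hDK0 : 0 ≤ DK := mul_nonneg hK (Finset.sum_nonneg fun i _ => hD i)
  set Dm := K * ∑ i, d i with hDm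
  have hDm0 : 0 ≤ Dm := mul_nonneg hK (Finset.sum_nonneg fun i _ => hd0 i)
  set a0 := Gg δ ^ 2 * (Dm / θ) + 5 * Gg δ ^ 2 * DK / θ with ha0
  have ha00 : 0 ≤ a0 := by have := sq_nonneg (Gg δ); positivity
  set η := δ ^ 2 / 2 * θ / ((5 * Gg δ ^ 2 * DK) ^ 2 + 1) with hη
  have hη0 : 0 < η := by positivity
  have hηle : (5 * Gg δ ^ 2 * DK) ^ 2 * (1 / θ) * η ≤ δ ^ 2 / 2 := by
    set Y := (5 * Gg δ ^ 2 * DK) ^ 2 with hY
    have hY0 : 0 ≤ Y := sq_nonneg _
    have e1 : Y * (1 / θ) * η = δ ^ 2 / 2 * (Y / (Y + 1)) := by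
      rw [hη]; field_simp
    rw [e1]
    have e2 : Y / (Y + 1) ≤ 1 := by rw [div_le_one (by positivity)]; linarith
    exact mul_le_of_le_one_right (by positivity) e2
  have htθ : Tendsto (fun T : ℝ => θ * Real.log T) atTop atTop :=
    Real.tendsto_log_atTop.const_mul_atTop hθ
  have s1 := htθ.eventually (np_small (ρ := θ' / θ) (by positivity) hη0)
  have s2 := ev_exp (2 / δ) 1 (show 1 - δ / 2 < 1 by linarith)
  have s3 := ev_exp 96 1 (show 1 - δ < 1 by linarith)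
  have s4 := ev_exp 16 1 hθ'1
  have s5 : ∀ᶠ T : ℝ in atTop, (3 * a0 ^ 2 + 4 * a0 ^ 4 + 2 * a0) / δ ≤ T := eventually_ge_atTop _
  have s6 := htθ.eventually_ge_atTop 5
  filter_upwards [s1, s2, s3, s4, s5, s6, Real.tendsto_log_atTop.eventually_ge_atTop 4,
    eventually_gt_atTop 1] with T s1 s2 s3 s4 s5 s6 hκ4 hT1
  intro μ hμ S r hS hrS hr
  set κ := Real.log T with hκ
  have hT0 : 0 < T := by linarith
  have hTκ : T = Real.exp κ := by rw [hκ, Real.exp_log hT0]
  rw [pow_one] at s2 s3 s4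
  set Λ' := θ * κ with hΛ
  set N := NT θ' T with hN
  set L := (∑ i, μ i * d i) * κ with hL
  set dd := dz (Rw δ) Λ' L (bb β μ) with hdd
  have hκ0 : 0 < κ := by linarith
  have hN1 : 1 ≤ N := by
    rw [hN]; unfold NT
    exact Nat.floor_pos.2 (Real.one_le_exp (mul_nonneg (by linarith) (by linarith)))
  have hN1' : (1 : ℝ) ≤ N := by exact_mod_cast hN1
  have hNe : (N : ℝ) ≤ Real.exp (θ' * κ) := by
    rw [hN]; unfold NT
    exact Nat.floor_le (Real.exp_pos _).le
  have hlogN' : Real.log N ≤ θ' * κ := by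
    rw [Real.log_le_iff_le_exp (by linarith)]; exact hNe
  have hθκ : θ' * κ ≤ κ := by
    have : θ' * κ ≤ 1 * κ := mul_le_mul_of_nonneg_right hθ'1.le hκ0.le
    linarith
  have hlogN : Real.log N ≤ κ := hlogN'.trans hθκ
  have hbD := bb_le (β := β) hμ hβ
  have hLle : |L| ≤ Dm * κ := by
    rw [hL, abs_mul, abs_of_pos hκ0]
    refine mul_le_mul_of_nonneg_right ?_ hκ0.le
    refine (Finset.abs_sum_le_sum_abs _ _).trans ?_
    have e : ∑ i, |μ i * d i| = ∑ i, |μ i| * d i :=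
      Finset.sum_congr rfl fun i _ => by rw [abs_mul, abs_of_nonneg (hd0 i)]
    rw [e]
    exact sum_le_K hμ hd0
  set A := |(dd 1).re| + ∑ p ∈ Pr N, ‖dd p‖ with hA
  have hAup : A ≤ a0 * N := A_up hδ hδ1 s6 hκ0 hθ hΛ hbD hDK0 hDm0 hLle hN1 hlogN
  have hA0 : 0 ≤ A := by
    rw [hA]; exact add_nonneg (abs_nonneg _) (Finset.sum_nonneg fun _ _ => norm_nonneg _)
  set H := Real.exp ((1 - δ / 2) * κ) with hH
  have hH0 : 0 < H := Real.exp_pos _
  set E := Real.exp (-(H ^ 2 * (1 / (2 * (N : ℝ) ^ 2)) ^ 2) / 4) with hE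
  have hEle : E ≤ Real.exp (-(6 * κ)) := by
    rw [hE]
    apply Real.exp_le_exp.2
    have h1 : (N : ℝ) ^ 2 ≤ Real.exp ((1 - δ) * κ) := by
      calc (N : ℝ) ^ 2 ≤ Real.exp (θ' * κ) ^ 2 := by gcongr
        _ = Real.exp (2 * θ' * κ) := by
          rw [← Real.exp_nat_mul]; congr 1; push_cast; ring
        _ ≤ Real.exp ((1 - δ) * κ) := by
          apply Real.exp_le_exp.2
          exact mul_le_mul_of_nonneg_right (by linarith) hκ0.le
    have h2 : Real.exp (δ / 2 * κ) / 2 ≤ H * (1 / (2 * (N : ℝ) ^ 2)) := by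
      have h3 : H = Real.exp (δ / 2 * κ) * Real.exp ((1 - δ) * κ) := by
        rw [hH, ← Real.exp_add]; congr 1; ring
      rw [h3, mul_one_div, div_le_div_iff₀ (by norm_num) (by positivity)]
      have := Real.exp_pos (δ / 2 * κ)
      calc Real.exp (δ / 2 * κ) * (2 * (N : ℝ) ^ 2) ≤
          Real.exp (δ / 2 * κ) * (2 * Real.exp ((1 - δ) * κ)) := by gcongr
        _ = _ := by ring
    have h4 := pow_le_pow_left₀ (by positivity) h2 2
    have h5 : (Real.exp (δ / 2 * κ) / 2) ^ 2 = Real.exp (δ * κ) / 4 := by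
      rw [div_pow, ← Real.exp_nat_mul]; congr 1
      · congr 1; push_cast; ring
      · norm_num
    rw [h5, mul_pow] at h4
    have h6 : 96 * κ ≤ Real.exp (δ * κ) := by
      rw [hTκ] at s3
      have h7 : Real.exp κ = Real.exp (δ * κ) * Real.exp ((1 - δ) * κ) := by
        rw [← Real.exp_add]; congr 1; ring
      rw [h7] at s3
      exact le_of_mul_le_mul_right s3 (Real.exp_pos _)
    linarith
  have hAe : A ≤ a0 * Real.exp κ := by
    refine hAup.trans (mul_le_mul_of_nonneg_left (hNe.trans (Real.exp_le_exp.2 hθκ)) ha00)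
  have hT' : 3 * a0 ^ 2 + 4 * a0 ^ 4 + 2 * a0 ≤ δ * Real.exp κ := by
    rw [← hTκ]
    rw [div_le_iff₀ hδ] at s5
    linarith
  have herr := err_bd hr hA0 hAe (Real.exp_pos _).le hEle hκ4 ha00 hT' hrS
  have hκH : 2 * (κ * H) ≤ δ * T := by
    have e1 : 2 / δ * κ * H = (2 * (κ * H)) / δ := by ring
    rw [e1, div_le_iff₀ hδ] at s2
    linarith
  have hlow := l1_low (N := N) hN1 (dd 1).re dd hH0 (S := S) (A := A) (E := E) (by
    rw [hS]; rfl) hA hE (r := r) (by linarith) hκ0.le (T := T) (by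
      have : δ * T ≤ 1 * T := mul_le_mul_of_nonneg_right hδ1 hT0.le
      linarith)
  -- the remaining part
  have hsm := s1 N (by
    rw [div_mul_eq_mul_div, le_div_iff₀ hθ, hΛ]
    calc Real.log N * θ ≤ θ' * κ * θ := mul_le_mul_of_nonneg_right hlogN' hθ.le
      _ = _ := by ring)
  have hnp := np_sq (L := L) hδ hδ1 (by linarith : 2 ≤ Λ') hκ0.le hbD hlogN hsm
  have hκΛ : κ / Λ' = 1 / θ := by rw [hΛ]; field_simp
  rw [hκΛ] at hnp
  have h8 : 8 * N * (1 + Real.log N) ≤ T := by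
    refine le_trans ?_ s4
    have h1 : 1 + Real.log N ≤ 2 * κ := by linarith
    calc 8 * N * (1 + Real.log N) ≤ 8 * Real.exp (θ' * κ) * (2 * κ) := by
          have : 0 ≤ Real.log N := Real.log_nonneg hN1'
          gcongr
      _ = _ := by ring
  have hnpi := np_int dd hT0.le hδ h8 (hnp.trans hηle)
  set R : ℝ → ℝ := fun s => (∑ n ∈ NP N, dd n * cexp (-(I * s * Real.log n))).re with hR
  have hRc : Continuous R := by
    simp only [hR]
    exact Complex.continuous_re.comp (by fun_prop)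
  have hvc := vv_cont N (dd 1).re dd
  have hsp : ∫ s in T..(2 * T), (|vv N (dd 1).re dd s| - |R s|) ≤ ∫ s in T..(2 * T),
      |(∑ n ∈ Finset.Icc 1 N, dd n * cexp (-(I * s * Real.log n))).re| := by
    refine intervalIntegral.integral_mono_on (by linarith) ?_ ?_ fun s _ => ?_
    · exact (hvc.abs.sub hRc.abs).intervalIntegrable _ _
    · apply Continuous.intervalIntegrable
      have : Continuous fun s : ℝ => (∑ n ∈ Finset.Icc 1 N, dd n * cexp (-(I * s * Real.log n))) := by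
        fun_prop
      exact (Complex.continuous_re.comp this).abs
    · rw [split_dz hN1 dd s]
      have := abs_sub_abs_le_abs_sub (vv N (dd 1).re dd s) (-R s)
      rw [abs_neg, sub_neg_eq_add] at this
      exact this
  rw [intervalIntegral.integral_sub (hvc.abs.intervalIntegrable _ _) (hRc.abs.intervalIntegrable _ _)] at hsp
  have hr3 : 0 ≤ r / 3 - δ := by linarith
  have h9 : T * (1 - δ) * (r / 3 - δ) ≤ (T - 2 * (κ * H)) * (3 / 2 * (S - A ^ 2 * E) / r -
      1 / 2 * (3 * S ^ 2 + A ^ 4 * E) / r ^ 3 - 2 * A * Real.exp (-κ ^ 2 / 2)) := by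
    have h10 : 0 ≤ T - 2 * (κ * H) := by
      have : δ * T ≤ 1 * T := mul_le_mul_of_nonneg_right hδ1 hT0.le
      linarith
    refine le_trans ?_ (mul_le_mul_of_nonneg_left herr h10)
    refine mul_le_mul_of_nonneg_right ?_ hr3
    linarith
  have h11 : T * ((1 - δ) * (r / 3 - δ) - δ) = T * (1 - δ) * (r / 3 - δ) - δ * T := by ring
  rw [h11]
  linarith

end

end Pool.Agent.H474.GRW
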