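import Pool.Agent.H474.SHP.Sh2

/-!
# The mass of the kernel at a complex point
-/

set_option autoImplicit false
set_option linter.unusedSectionVars false

open Complex Filter Topology Set MeasureTheory
open scoped ComplexConjugate
open W388 H385

namespace Pool.Agent.H474.GRW

open Pool.Agent.H474.SHP

section

variable {γ : ℝ} (h0 : 0 < γ) (hπ : γ < Real.pi)

include h0 hπ

lemma kapw_im (y : ℝ) : ‖kapw γ (y * I)‖ ≤ Gg γ * Real.exp (|y| / 2) := by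
  unfold kapw
  have h1 : ∀ x ∈ Set.uIoc (-1 / 2 : ℝ) (1 / 2),
      ‖(gw γ x : ℂ) * cexp (I * (y * I) * x)‖ ≤ Gg γ * Real.exp (|y| / 2) := by
    intro x hx
    rw [Set.uIoc_of_le (by norm_num)] at hx
    have hx' : x ∈ Set.Icc (-1 / 2 : ℝ) (1 / 2) := ⟨hx.1.le, hx.2⟩
    obtain ⟨g1, g2⟩ := gwb h0 hπ x hx'
    rw [norm_mul, Complex.norm_real, Real.norm_of_nonneg g1]
    refine mul_le_mul g2 ?_ (norm_nonneg _) (g1.trans g2)
    have e : I * ((y : ℂ) * I) * x = ((-(y * x) : ℝ) : ℂ) := by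
      push_cast
      linear_combination (y : ℂ) * x * Complex.I_sq
    rw [e, Complex.norm_exp, Complex.ofReal_re]
    apply Real.exp_le_exp.2
    have h2 : |x| ≤ 1 / 2 := abs_le.2 ⟨by linarith [hx'.1], hx'.2⟩
    calc -(y * x) ≤ |y * x| := neg_le_abs _
      _ = |y| * |x| := abs_mul _ _
      _ ≤ |y| * (1 / 2) := mul_le_mul_of_nonneg_left h2 (abs_nonneg _)
      _ = |y| / 2 := by ring
  refine (intervalIntegral.norm_integral_le_of_norm_le_const h1).trans (le_of_eq ?_)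
  norm_num

lemma pg_im {Λ' : ℝ} (hΛ : 0 < Λ') (y : ℝ) : ‖pg γ Λ' (y * I)‖ ≤
    Gg γ * Real.exp (Λ' * |y| / 2 + y ^ 2 / 4) := by
  unfold pg
  have e1 : (Λ' : ℂ) * (y * I) = ((Λ' * y : ℝ) : ℂ) * I := by push_cast; ring
  have e2 : cexp (-((y : ℂ) * I) ^ 2 / 4) = ((Real.exp (y ^ 2 / 4) : ℝ) : ℂ) := by
    rw [Complex.ofReal_exp]
    congr 1
    push_cast
    linear_combination (-(y : ℂ) ^ 2 / 4) * Complex.I_sq
  rw [norm_mul, e1, e2, Complex.norm_real, Real.norm_of_nonneg (Real.exp_pos _).le, Real.exp_add,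
    ← mul_assoc]
  refine mul_le_mul_of_nonneg_right ?_ (Real.exp_pos _).le
  refine (kapw_im h0 hπ (Λ' * y)).trans (le_of_eq ?_)
  rw [abs_mul, abs_of_pos hΛ]

/-- **the mass** -/
theorem mass {Λ' : ℝ} (hΛ : 0 < Λ') (z : ℂ) :
    Integrable (fun s : ℝ => ‖pg γ Λ' (z - s) ^ 2‖) ∧
    ∫ s : ℝ, ‖pg γ Λ' (z - s) ^ 2‖ ≤
      2 * Real.pi * Gg γ ^ 2 / Λ' * Real.exp (Λ' * |z.im| + z.im ^ 2) := by
  have h := Pool.Agent.Y550.ND.t_BESS (gw γ) gw_cnt (gw_evn h0 hπ) (Gg γ) (gwb h0 hπ) Λ' hΛ (pg γ Λ')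
    (fun z => rfl) {z} (fun _ => 1)
  have e : (fun s : ℝ => ‖∑ w ∈ ({z} : Finset ℂ), (1 : ℂ) * pg γ Λ' (s - w)‖ ^ 2) =
      fun s : ℝ => ‖pg γ Λ' (z - s) ^ 2‖ := by
    funext s
    rw [Finset.sum_singleton, one_mul, norm_pow, ← pg_even Λ' (z - s), neg_sub]
  rw [e] at h
  refine ⟨h.1, h.2.trans ?_⟩
  rw [Finset.sum_singleton, Finset.sum_singleton, map_one, one_mul, one_mul]
  have hG : 0 < Gg γ := Gg_pos h0 hπ
  have e2 : conj z - z = ((-2 * z.im : ℝ) : ℂ) * I := by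
    apply Complex.ext
    · simp
    · simp; ring
  have h3 : (pg γ Λ' (conj z - z)).re ≤ Gg γ * Real.exp (Λ' * |z.im| + z.im ^ 2) := by
    refine (Complex.re_le_norm _).trans ?_
    rw [e2]
    refine (pg_im h0 hπ hΛ (-2 * z.im)).trans (le_of_eq ?_)
    congr 2
    rw [abs_mul]
    norm_num
    ring
  have h4 : 0 ≤ 2 * Real.pi * Gg γ / Λ' := by
    have := Real.pi_pos
    positivity
  refine (mul_le_mul_of_nonneg_left h3 h4).trans (le_of_eq ?_)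
  ring

end

end Pool.Agent.H474.GRW
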