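import Pool.Agent.H474.GRW.Low
import Pool.Agent.H474.GRW.Mass

/-!
# Sums over the zeros
-/

set_option autoImplicit false
set_option linter.unusedSectionVars false

open Complex Filter Topology Set MeasureTheory
open scoped ComplexConjugate
open H370 (zset mult NN)
open W388 H385
open scoped ArithmeticFunction.vonMangoldt

namespace Pool.Agent.H474.GRW

open Pool.Agent.H474.SHP
open Pool.Agent.Y772.ND (Zf wf mem_Zf wf_nonneg wf_notMem sum_wf sum_wf_le aa ZZ mem_ZZ mult_zero)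

section

variable {ι : Type} [Fintype ι]

/-- the box -/
def bx (T : ℝ) : Set ℂ := {s : ℂ | 0 < s.re ∧ s.re < 1 ∧ T < s.im ∧ s.im ≤ 2 * T}

/-- the sum of the absolute values of the multiplicities of the combination -/
noncomputable def St (F : ι → ℂ → ℂ) (μ : ι → ℝ) (T : ℝ) : ℝ :=
  ∑ᶠ s ∈ bx T, |∑ i, μ i * (mult (F i) s : ℝ)|

lemma St_eq {d A : ι → ℝ} {F : ι → ℂ → ℂ} {a : ι → ℕ → ℂ}
    (hF : ∀ i, GoodE (d i) (A i) 1 (F i) (a i)) (μ : ι → ℝ) {T : ℝ} (hT : 1 ≤ T) (Z : Finset ℂ)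
    (hZb : ∀ s, s ∈ Z → s ∈ bx T) (hsub : ∀ i, zset (F i) T (2 * T) ⊆ (Z : Set ℂ)) :
    St F μ T = ∑ s ∈ Z, |∑ i, μ i * (mult (F i) s : ℝ)| := by
  unfold St
  rw [finsum_mem_eq_sum_of_inter_support_eq]
  ext s
  simp only [Set.mem_inter_iff, Function.mem_support]
  constructor
  · rintro ⟨h1, h2⟩
    refine ⟨?_, h2⟩
    by_contra h3
    apply h2
    obtain ⟨g1, g2, g3, g4⟩ := h1
    have : ∑ i, μ i * (mult (F i) s : ℝ) = 0 := by
      refine Finset.sum_eq_zero fun i _ => ?_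
      have h0 : F i s ≠ 0 := fun h0 => h3 (hsub i ⟨g1, g2, g3, g4, h0⟩)
      rw [mult_zero (hF i) (by linarith) h0]
      simp
    rw [this, abs_zero]
  · rintro ⟨h1, h2⟩
    exact ⟨hZb s h1, h2⟩

lemma half_inj : Function.Injective fun z : ℂ => 1 / 2 + I * z := by
  intro x y hxy
  have h1 : I * x = I * y := by simpa using hxy
  exact mul_left_cancel₀ I_ne_zero h1

lemma half_im (z : ℂ) : (1 / 2 + I * z).im = z.re := by simp

lemma half_re (z : ℂ) : (1 / 2 + I * z).re = 1 / 2 - z.im := by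
  simp; ring

/-- the points inside -/
lemma sum_in {d A : ι → ℝ} (hA : ∀ i, 1 ≤ A i) {F : ι → ℂ → ℂ} {a : ι → ℕ → ℂ}
    (hF : ∀ i, GoodE (d i) (A i) 1 (F i) (a i)) (μ : ι → ℝ) {T : ℝ} (hT : 1 ≤ T)
    {V1 V2 : ι → ℝ} (h : ∀ i, (zset (F i) (V1 i) (V2 i)).Finite) (hV1 : ∀ i, V1 i ≤ T)
    (hV2 : ∀ i, 2 * T ≤ V2 i) :
    ∑ z ∈ (ZZ h).filter (fun z => T < z.re ∧ z.re ≤ 2 * T), ‖aa F V1 V2 μ z‖ ≤ St F μ T := by
  classical
  have hfin : (⋃ i, zset (F i) T (2 * T)).Finite :=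
    Set.finite_iUnion fun i => zset_finite_D (hA i) le_rfl (hF i) T (2 * T) hT
  rw [St_eq hF μ hT hfin.toFinset (fun s hs => by
    obtain ⟨i, g1, g2, g3, g4, -⟩ := Set.mem_iUnion.1 (hfin.mem_toFinset.1 hs)
    exact ⟨g1, g2, g3, g4⟩) (fun i s hs => hfin.mem_toFinset.2 (Set.mem_iUnion.2 ⟨i, hs⟩))]
  have hw : ∀ z ∈ (ZZ h).filter (fun z => T < z.re ∧ z.re ≤ 2 * T),
      ‖aa F V1 V2 μ z‖ = |∑ i, μ i * (mult (F i) (1 / 2 + I * z) : ℝ)| := by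
    intro z hz
    obtain ⟨hz1, hz2, hz3⟩ := Finset.mem_filter.1 hz
    obtain ⟨i, g1, g2, g3, g4, g5⟩ := (mem_ZZ h).1 hz1
    rw [half_im] at g3 g4
    have hw : ∀ j, wf (F j) (V1 j) (V2 j) z = (mult (F j) (1 / 2 + I * z) : ℝ) := by
      intro j
      unfold wf
      split_ifs with hj
      · rfl
      · have : F j (1 / 2 + I * z) ≠ 0 := by
          intro h0
          exact hj ⟨g1, g2, by rw [half_im]; exact (hV1 j).trans_lt hz2,
            by rw [half_im]; exact hz3.trans (hV2 j), h0⟩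
        rw [mult_zero (hF j) (by rw [half_im]; linarith) this]
        simp
    unfold Pool.Agent.Y772.ND.aa
    simp_rw [hw]
    rw [← Real.norm_eq_abs, ← Complex.norm_real]
    push_cast
    rfl
  rw [Finset.sum_congr rfl hw, ← Finset.sum_image (s := (ZZ h).filter (fun z => T < z.re ∧ z.re ≤ 2 * T))
    (g := fun z : ℂ => 1 / 2 + I * z) (f := fun s => |∑ i, μ i * (mult (F i) s : ℝ)|)
    (fun x _ y _ hxy => half_inj hxy)]
  refine Finset.sum_le_sum_of_subset_of_nonneg ?_ fun _ _ _ => abs_nonneg _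
  intro s hs
  obtain ⟨z, hz, rfl⟩ := Finset.mem_image.1 hs
  obtain ⟨hz1, hz2, hz3⟩ := Finset.mem_filter.1 hz
  obtain ⟨i, g1, g2, g3, g4, g5⟩ := (mem_ZZ h).1 hz1
  refine hfin.mem_toFinset.2 (Set.mem_iUnion.2 ⟨i, g1, g2, ?_, ?_, g5⟩)
  · rw [half_im]; exact hz2
  · rw [half_im]; exact hz3

/-- the single weights -/
lemma sum_wt {F : ι → ℂ → ℂ} {V1 V2 : ι → ℝ} (h : ∀ i, (zset (F i) (V1 i) (V2 i)).Finite)
    (μ : ι → ℝ) (P : ℂ → Prop) [DecidablePred P] (g : ℂ → ℝ) (hg : ∀ z, 0 ≤ g z) :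
    ∑ z ∈ (ZZ h).filter P, ‖aa F V1 V2 μ z‖ * g z ≤
      ∑ i, |μ i| * ∑ z ∈ (Zf (h i)).filter P, wf (F i) (V1 i) (V2 i) z * g z := by
  classical
  have h1 : ∀ z ∈ (ZZ h).filter P, ‖aa F V1 V2 μ z‖ * g z ≤
      ∑ i, |μ i| * (wf (F i) (V1 i) (V2 i) z * g z) := by
    intro z _
    unfold Pool.Agent.Y772.ND.aa
    have h2 : ‖∑ i, (μ i : ℂ) * (wf (F i) (V1 i) (V2 i) z : ℂ)‖ ≤ ∑ i, |μ i| * wf (F i) (V1 i) (V2 i) z := by
      refine (norm_sum_le _ _).trans (Finset.sum_le_sum fun i _ => ?_)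
      rw [norm_mul, Complex.norm_real, Complex.norm_real, Real.norm_eq_abs,
        Real.norm_of_nonneg (wf_nonneg _ _ _ _)]
    refine (mul_le_mul_of_nonneg_right h2 (hg z)).trans (le_of_eq ?_)
    rw [Finset.sum_mul]
    exact Finset.sum_congr rfl fun i _ => by ring
  refine (Finset.sum_le_sum h1).trans (le_of_eq ?_)
  rw [Finset.sum_comm]
  refine Finset.sum_congr rfl fun i _ => ?_
  rw [← Finset.mul_sum]
  congr 1
  symm
  refine Finset.sum_subset ?_ ?_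
  · intro z hz
    obtain ⟨h3, h4⟩ := Finset.mem_filter.1 hz
    exact Finset.mem_filter.2 ⟨(mem_ZZ h).2 ⟨i, (mem_Zf (h i)).1 h3⟩, h4⟩
  · intro z hz hz'
    obtain ⟨h3, h4⟩ := Finset.mem_filter.1 hz
    have h5 : z ∉ Zf (h i) := fun h5 => hz' (Finset.mem_filter.2 ⟨h5, h4⟩)
    rw [mem_Zf] at h5
    rw [wf_notMem h5, zero_mul]

/-- the points outside -/
lemma sum_out {d A : ι → ℝ} (hA : ∀ i, 1 ≤ A i) {F : ι → ℂ → ℂ} {a : ι → ℕ → ℂ}
    (hF : ∀ i, GoodE (d i) (A i) 1 (F i) (a i)) {K : ℝ} (hK : 0 ≤ K) {μ : ι → ℝ}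
    (hμ : ∀ i, |μ i| ≤ K) {T : ℝ} (hT : 1 ≤ T)
    {V1 V2 : ι → ℝ} (h : ∀ i, (zset (F i) (V1 i) (V2 i)).Finite)
    (hV0 : ∀ i, 1 ≤ V1 i) :
    ∑ z ∈ (ZZ h).filter (fun z => ¬ (T < z.re ∧ z.re ≤ 2 * T)), ‖aa F V1 V2 μ z‖ ≤
      K * ∑ i, ((NN (F i) (V1 i) T : ℝ) + (NN (F i) (2 * T) (V2 i) : ℝ)) := by
  classical
  have f1 : ∀ i, (zset (F i) (V1 i) T).Finite := fun i =>
    zset_finite_D (hA i) le_rfl (hF i) _ _ (hV0 i)
  have f2 : ∀ i, (zset (F i) (2 * T) (V2 i)).Finite := fun i =>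
    zset_finite_D (hA i) le_rfl (hF i) _ _ (by linarith)
  have h1 := sum_wt h μ (fun z => ¬ (T < z.re ∧ z.re ≤ 2 * T)) (fun _ => 1) (fun _ => zero_le_one)
  simp only [mul_one] at h1
  refine h1.trans ?_
  rw [Finset.mul_sum]
  refine Finset.sum_le_sum fun i _ => ?_
  have h2 : ∑ z ∈ (Zf (h i)).filter (fun z => ¬ (T < z.re ∧ z.re ≤ 2 * T)), wf (F i) (V1 i) (V2 i) z ≤
      (NN (F i) (V1 i) T : ℝ) + (NN (F i) (2 * T) (V2 i) : ℝ) := by
    have a1 := sum_wf_le (h i) (f1 i) (fun z => z.re ≤ T) (fun z hz hz' => by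
      obtain ⟨g1, g2, g3, g4, g5⟩ := hz
      exact ⟨g1, g2, g3, by rw [half_im]; exact hz', g5⟩)
    have a2 := sum_wf_le (h i) (f2 i) (fun z => 2 * T < z.re) (fun z hz hz' => by
      obtain ⟨g1, g2, g3, g4, g5⟩ := hz
      exact ⟨g1, g2, by rw [half_im]; exact hz', g4, g5⟩)
    refine le_trans ?_ (add_le_add a1 a2)
    have e : ∀ z, ‖(wf (F i) (V1 i) (V2 i) z : ℂ)‖ = wf (F i) (V1 i) (V2 i) z := fun z => by
      rw [Complex.norm_real, Real.norm_of_nonneg (wf_nonneg _ _ _ _)]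
    simp_rw [e]
    refine le_trans (Finset.sum_le_sum_of_subset_of_nonneg (t := (Zf (h i)).filter (fun z => z.re ≤ T) ∪
      (Zf (h i)).filter (fun z => 2 * T < z.re)) ?_ fun _ _ _ => wf_nonneg _ _ _ _) ?_
    · intro z hz
      obtain ⟨h3, h4⟩ := Finset.mem_filter.1 hz
      rw [Finset.mem_union]
      by_cases h5 : z.re ≤ T
      · exact Or.inl (Finset.mem_filter.2 ⟨h3, h5⟩)
      · right
        refine Finset.mem_filter.2 ⟨h3, ?_⟩
        by_contra h6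
        exact h4 ⟨lt_of_not_ge h5, le_of_not_gt h6⟩
    · have := Finset.sum_union_inter (s₁ := (Zf (h i)).filter (fun z => z.re ≤ T))
        (s₂ := (Zf (h i)).filter (fun z => 2 * T < z.re)) (f := fun z => wf (F i) (V1 i) (V2 i) z)
      have h7 : 0 ≤ ∑ z ∈ (Zf (h i)).filter (fun z => z.re ≤ T) ∩
        (Zf (h i)).filter (fun z => 2 * T < z.re), wf (F i) (V1 i) (V2 i) z :=
        Finset.sum_nonneg fun z _ => wf_nonneg _ _ _ _
      linarith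
  have h3 : 0 ≤ ∑ z ∈ (Zf (h i)).filter (fun z => ¬ (T < z.re ∧ z.re ≤ 2 * T)), wf (F i) (V1 i) (V2 i) z :=
    Finset.sum_nonneg fun z _ => wf_nonneg _ _ _ _
  exact mul_le_mul (hμ i) h2 h3 hK

/-- the far points -/
lemma sum_far {F : ι → ℂ → ℂ} {V1 V2 : ι → ℝ} (h : ∀ i, (zset (F i) (V1 i) (V2 i)).Finite)
    (μ : ι → ℝ) {θ κ B : ℝ} (hθ : 0 < θ) (hθ8 : θ ≤ 1 / 8)
    (hB : ∀ i, ∑ z ∈ Zf (h i), wf (F i) (V1 i) (V2 i) z * Real.exp (1 / 4 * (|z.im| * κ)) ≤ B) :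
    ∑ z ∈ (ZZ h).filter (fun z => ¬ θ * κ * |z.im| ≤ 1), ‖aa F V1 V2 μ z‖ *
      Real.exp (θ * κ * |z.im|) ≤ (∑ i, |μ i|) * (Real.exp 1 * Real.exp (-(1 / (4 * θ))) * B) := by
  classical
  refine (sum_wt h μ _ _ fun z => (Real.exp_pos _).le).trans ?_
  rw [Finset.sum_mul]
  refine Finset.sum_le_sum fun i _ => mul_le_mul_of_nonneg_left ?_ (abs_nonneg _)
  have hE : 0 ≤ Real.exp 1 * Real.exp (-(1 / (4 * θ))) := by positivity
  refine le_trans ?_ (mul_le_mul_of_nonneg_left (hB i) hE)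
  rw [Finset.mul_sum]
  refine le_trans (Finset.sum_le_sum (g := fun z => Real.exp 1 * Real.exp (-(1 / (4 * θ))) *
    (wf (F i) (V1 i) (V2 i) z * Real.exp (1 / 4 * (|z.im| * κ)))) fun z hz => ?_)
    (Finset.sum_le_sum_of_subset_of_nonneg (Finset.filter_subset _ _) fun z _ _ =>
      mul_nonneg hE (mul_nonneg (wf_nonneg _ _ _ _) (Real.exp_pos _).le))
  obtain ⟨-, h2⟩ := Finset.mem_filter.1 hz
  push Not at h2
  have h3 : Real.exp (θ * κ * |z.im|) ≤ Real.exp 1 * Real.exp (-(1 / (4 * θ))) *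
      Real.exp (1 / 4 * (|z.im| * κ)) := by
    rw [← Real.exp_add, ← Real.exp_add]
    apply Real.exp_le_exp.2
    set x := κ * |z.im| with hx
    have h4 : 1 < θ * x := by rw [hx]; linarith
    have h5 : 1 / (4 * θ) * (4 * θ) = 1 := by field_simp
    have h6 : 1 / (4 * θ) - 1 ≤ (1 / 4 - θ) * x := by
      have h7 : 1 / θ < x := by rw [div_lt_iff₀ hθ]; linarith
      have h8 : (1 / 4 - θ) * (1 / θ) = 1 / (4 * θ) - 1 := by field_simp
      rw [← h8]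
      exact mul_le_mul_of_nonneg_left h7.le (by linarith)
    have e1 : θ * κ * |z.im| = θ * x := by rw [hx]; ring
    have e2 : 1 / 4 * (|z.im| * κ) = 1 / 4 * x := by rw [hx]; ring
    rw [e1, e2]
    linarith
  calc wf (F i) (V1 i) (V2 i) z * Real.exp (θ * κ * |z.im|) ≤ wf (F i) (V1 i) (V2 i) z *
        (Real.exp 1 * Real.exp (-(1 / (4 * θ))) * Real.exp (1 / 4 * (|z.im| * κ))) :=
        mul_le_mul_of_nonneg_left h3 (wf_nonneg _ _ _ _)
    _ = _ := by ring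

end

end Pool.Agent.H474.GRW
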